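import Pool.Agent.Mg.F692752.G94411f
import Pool.Agent.MP_692752_al.Stmt4
import Pool.Agent.Mg.F692752.Gf5a3e4

set_option linter.all false

section

/-! Statements of the parts of the theorem about pushing a branch point. -/

set_option autoImplicit false

namespace Pool.Agent.MP_692752_al.PP

open Equiv

/-! Abstract transfer for a target with separable finitely generated subgroups -/

def Lerf (Λ : Type) [Group Λ] : Prop := ∀ Y : Subgroup Λ, Y.FG → cl Y ≤ Y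

def Ctg {A Λ : Type} [Group A] [Group Λ] (T : Subgroup A) (P : T →* Λ) : Prop :=
  ∀ M : Subgroup Λ, M.FiniteIndex →
    ∃ B : Subgroup A, B.FiniteIndex ∧ ∀ t : T, (t : A) ∈ B → P t ∈ M

def Outg_st : Prop := ∀ (G Λ : Type) [Group G] [Group Λ], Lerf Λ → Group.FG G → Gr G →
  ∀ (T : Subgroup (MulAut G)) (P : T →* Λ), cl T ≤ T → Ctg T P →
  ∀ H : Subgroup (Out G), H.FG → T.relIndex (H.comap (toOut G)) ≠ 0 →
  {φ : Out G | φ ∈ H ∧ ∃ t : T, toOut G t = φ ∧ P t = 1}.Finite → Separable H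

/-! The data of a half turn -/

structure PD (G Λ : Type) [Group G] [Group Λ] where
  ι : G →* G
  q : G →* Λ
  r : G
  ιι : ∀ z, ι (ι z) = z
  qs : Function.Surjective q
  fg : Group.FG G
  rf : RFL G
  cf : CFG G
  gr : GrP G
  rf' : RFL Λ
  cf' : CFG Λ
  gr' : GrP Λ
  co : ∀ m, ∃ m', ∀ u, Eqv m' (ι u) u → q u ∈ Lv Λ m
  tor : ∀ v, v * ι v = 1 → ∃ u, v = u * (ι u)⁻¹ ∨ v = u * r * (ι u)⁻¹
  nr : ∃ m, ∀ y, ¬ Eqv m r (y * (ι y)⁻¹)

def PD.Psh {G Λ : Type} [Group G] [Group Λ] (d : PD G Λ) (w : Λ) (β : MulAut G) : Prop :=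
  (∀ z, β (d.ι z) = d.ι (β z)) ∧ ∀ z, d.q (β z) = w * d.q z * w⁻¹

def PD.Pu {G Λ Γ : Type} [Group G] [Group Λ] [Group Γ] (d : PD G Λ) (D : Subgroup Γ) (θ : D →* G)
    (w : Λ) (α : MulAut Γ) : Prop :=
  (∀ x, α x ∈ D ↔ x ∈ D) ∧ ∃ (u : G) (β : MulAut G), d.Psh w β ∧
    ∀ (x : D) (hx : α x ∈ D), θ ⟨α x, hx⟩ = u * β (θ x) * u⁻¹

def Key_st : Prop := ∀ (G Λ : Type) [Group G] [Group Λ] (d : PD G Λ) (U : Subgroup G),
  U.FiniteIndex → ∀ m, ∃ m', ∀ u β w, d.Psh w β → (∀ x ∈ U, Eqv m' (u * β x * u⁻¹) x) →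
    w ∈ Lv Λ m

def Clo_st : Prop := ∀ (G Λ : Type) [Group G] [Group Λ] (d : PD G Λ) (U : Subgroup G),
  U.FiniteIndex → ∀ γ : MulAut G,
  (∀ m, ∃ u β w, d.Psh w β ∧ ∀ x ∈ U, Eqv m (γ x) (u * β x * u⁻¹)) →
  ∃ u β w, d.Psh w β ∧ ∀ x, γ x = u * β x * u⁻¹

def Core_st : Prop := ∀ (G Λ Γ : Type) [Group G] [Group Λ] [Group Γ] (d : PD G Λ), Group.FG Γ →
  ∀ D : Subgroup Γ, D.FiniteIndex → ∀ θ : D →* G, θ.range.FiniteIndex →
  ∃ (T : Subgroup (MulAut Γ)) (P : T →* Λ), cl T ≤ T ∧ Ctg T P ∧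
    (∀ α w, d.Pu D θ w α → α ∈ T) ∧ ∀ t : T, d.Pu D θ (P t) t

/-! Surface groups -/

/-- the product of the first `h` commutators -/
def rh (h : ℕ) : Surf (h + h) :=
  FreeGroup.lift (fun i => gen (h + h) (Sum.map (Fin.castAdd h) (Fin.castAdd h) i)) (surfRel h)

def CFS_st : Prop := ∀ n, 2 ≤ n → CFG (Surf n)

def COS_st : Prop := ∀ h, 1 ≤ h → ∀ m, ∃ m', ∀ u : Surf (h + h),
  Eqv m' (turn h u) u → fold h u ∈ Lv (Surf h) m

def TorS_st : Prop := ∀ h, 1 ≤ h → ∀ v : Surf (h + h), v * turn h v = 1 →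
  ∃ u, v = u * (turn h u)⁻¹ ∨ v = u * rh h * (turn h u)⁻¹

def NrS_st : Prop := ∀ h, 1 ≤ h → ∃ m, ∀ y : Surf (h + h), ¬ Eqv m (rh h) (y * (turn h y)⁻¹)

/-! Finite approximations of actions -/

/-- the product `c (n - 1) * ... * c 0` -/
def dn {G : Type} [Group G] (c : ℕ → G) : ℕ → G
  | 0 => 1
  | n + 1 => c n * dn c n

def Tame {Z X : Type} (φ : Perm Z) (ψ : Perm X) (e : Z → X) (B : Set Z) : Prop :=
  ∀ y ∈ B, ∀ y' ∈ B, ∀ k : ℤ, (ψ ^ k) (e y) = e y' →
    ∃ m : ℤ, (φ ^ m) y = y' ∧ ∀ z ∈ B, ∀ z' ∈ B, (φ ^ m) z = z' → (ψ ^ k) (e z) = e z'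

/-- closing up the chains of a finite injective relation -/
def CL_st : Prop := ∀ (V : Type) [Finite V] (R : V → V → Prop) (d : ℕ) [NeZero d]
  (deg : V → ZMod d), (∀ x y y', R x y → R x y' → y = y') → (∀ x x' y, R x y → R x' y → x = x') →
  (∀ x y, R x y → deg y = deg x + 1) →
  ∃ (X : Type) (_ : Finite X) (ψ : Perm X) (e : V → X) (dg : X → ZMod d) (N : ℕ),
    Function.Injective e ∧ (∀ x y, R x y → ψ (e x) = e y) ∧ ψ ^ N = 1 ∧
    (∀ x, dg (e x) = deg x) ∧ (∀ x, dg (ψ x) = dg x + 1) ∧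
    ∀ (Z : Type) (φ : Perm Z) (p : V → Z), (∀ x y, R x y → p y = φ (p x)) →
      ∀ x y (k : ℤ), (ψ ^ k) (e x) = e y → ∃ m : ℤ, m ≡ k [ZMOD N] ∧ (φ ^ m) (p x) = p y

/-- a finite set that holds the segments between the points of `B` -/
def Seg_st : Prop := ∀ (Z : Type) (φ : Perm Z) (B : Set Z), B.Finite →
  ∃ W : Set Z, W.Finite ∧ ∀ y ∈ B, ∀ k : ℤ, (φ ^ k) y ∈ B →
    ∀ i ∈ Set.uIcc 0 k, (φ ^ i) y ∈ W

def CMP_st : Prop := ∀ h : ℕ, 2 ≤ h → ∀ (Z : Type) (c : ℕ → Perm Z) (B : Set Z), B.Finite →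
  ∃ (X : Type) (_ : Finite X) (c' : ℕ → Perm X) (e : Z → X), Set.InjOn e B ∧
    (∀ j < h, Tame (c j) (c' j) e B ∧ ∀ y ∈ B, c j y ∈ B → c' j (e y) = e (c j y)) ∧
    Tame (dn c h) (dn c' h) e B

def INV_st : Prop := ∀ (Z X : Type) (φ s : Perm Z) (ψ : Perm X) (e : Z → X) (B : Set Z),
  Tame φ ψ e B → s * s = 1 → s * φ = φ * s →
  ∃ s' : Perm X, s' * s' = 1 ∧ s' * ψ = ψ * s' ∧ ∀ y ∈ B, s y ∈ B → s' (e y) = e (s y)

/-- every action is approximated by finite actions on the generators `S` -/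
def Apx (G : Type) [Group G] (S : Set G) : Prop := ∀ (Y : Type) [MulAction G Y] (B : Set Y),
  B.Finite → ∃ (X : Type) (_ : Finite X) (ρ : G →* Perm X) (e : Y → X), Set.InjOn e B ∧
    ∀ s ∈ S, ∀ y ∈ B, s • y ∈ B → ρ s (e y) = e (s • y)

def LER_st : Prop := ∀ (G : Type) [Group G] (S : Set G), Subgroup.closure S = ⊤ → Apx G S → Lerf G

def APX_st : Prop := ∀ h, 2 ≤ h → ∃ S : Set (Surf h), Subgroup.closure S = ⊤ ∧ Apx (Surf h) S

end Pool.Agent.MP_692752_al.PP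

end

section

/-! Finite approximations of actions of surface groups, and separability. -/

set_option autoImplicit false

namespace Pool.Agent.MP_692752_al.PP

open Equiv

theorem word_Apx {G Y : Type} [Group G] [MulAction G Y] {S : Set G} {g : G}
    (hg : g ∈ Subgroup.closure S) : ∀ y : Y, ∃ B0 : Set Y, B0.Finite ∧
      ∀ (X : Type) (ρ : G →* Perm X) (e : Y → X) (B : Set Y), B0 ⊆ B →
        (∀ s ∈ S, ∀ y ∈ B, s • y ∈ B → ρ s (e y) = e (s • y)) → ρ g (e y) = e (g • y) := by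
  induction hg using Subgroup.closure_induction with
  | mem s hs =>
    exact fun y => ⟨{y, s • y}, Set.toFinite _, fun X ρ e B hB h =>
      h s hs y (hB (by simp)) (hB (by simp))⟩
  | one => exact fun y => ⟨∅, Set.finite_empty, fun X ρ e B _ _ => by simp⟩
  | mul g k _ _ hg hk =>
    intro y
    obtain ⟨B1, f1, h1⟩ := hk y
    obtain ⟨B2, f2, h2⟩ := hg (k • y)
    refine ⟨B1 ∪ B2, f1.union f2, fun X ρ e B hB h => ?_⟩
    rw [map_mul, Perm.mul_apply, h1 X ρ e B (Set.subset_union_left.trans hB) h,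
      h2 X ρ e B (Set.subset_union_right.trans hB) h, mul_smul]
  | inv g _ hg =>
    intro y
    obtain ⟨B1, f1, h1⟩ := hg (g⁻¹ • y)
    refine ⟨B1, f1, fun X ρ e B hB h => ?_⟩
    have h2 := h1 X ρ e B hB h
    rw [smul_inv_smul] at h2
    rw [map_inv, Perm.inv_eq_iff_eq, h2]

theorem ler_pf : LER_st := by
  intro G _ S hS hA H hH a ha
  obtain ⟨F, hF, fF⟩ := (Subgroup.fg_iff H).1 hH
  choose B0 f0 h0 using fun g : G =>
    word_Apx (S := S) (g := g) (hS ▸ Subgroup.mem_top g) ((1 : G) : G ⧸ H)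
  have hfix : ∀ g : G, g • ((1 : G) : G ⧸ H) = ((1 : G) : G ⧸ H) ↔ g ∈ H := fun g => by
    rw [MulAction.Quotient.smul_coe, eq_comm, QuotientGroup.eq]
    simp
  obtain ⟨X, _, ρ, e, h1, h2⟩ := hA (G ⧸ H)
    ({((1 : G) : G ⧸ H), a • ((1 : G) : G ⧸ H)} ∪ ⋃ g ∈ insert a F, B0 g)
    ((Set.toFinite _).union ((fF.insert a).biUnion fun g _ => f0 g))
  have h3 : ∀ g ∈ insert a F, ρ g (e ((1 : G) : G ⧸ H)) = e (g • ((1 : G) : G ⧸ H)) := fun g hg =>
    h0 g X ρ e _ ((Set.subset_biUnion_of_mem hg).trans Set.subset_union_right) h2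
  have h4 := ha ((MulAction.stabilizer (Perm X) (e ((1 : G) : G ⧸ H))).comap ρ)
    (Subgroup.finiteIndex_of_le (H := ρ.ker) fun g hg => by
      rw [Subgroup.mem_comap, MonoidHom.mem_ker.1 hg]
      exact one_mem _)
    (hF.ge.trans ((Subgroup.closure_le _).2 fun g hg =>
      (h3 g (Or.inr hg)).trans (congrArg e ((hfix g).2 (hF.le (Subgroup.subset_closure hg))))))
  exact (hfix a).1 (h1 (Or.inl (by simp)) (Or.inl (by simp)) ((h3 a (Or.inl rfl)).symm.trans h4))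

section
variable {G : Type} [Group G]

/-- the product of the first `n` commutators -/
def cm_Apx (A C : ℕ → G) (n : ℕ) : G :=
  (List.ofFn fun i : Fin n => A i * C i * (A i)⁻¹ * (C i)⁻¹).prod

theorem cm_succ_Apx (A C : ℕ → G) (n : ℕ) :
    cm_Apx A C (n + 1) = cm_Apx A C n * (A n * C n * (A n)⁻¹ * (C n)⁻¹) := by
  simp only [cm_Apx, List.ofFn_succ_last, List.prod_append, List.prod_cons, List.prod_nil,
    mul_one, Fin.val_castSucc, Fin.val_last]

/-- the defect between the two boundary words -/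
def vv_Apx (T C : ℕ → G) (n : ℕ) : G := dn (fun j => T j * C j * (T j)⁻¹) n * (dn C n)⁻¹

theorem vv_succ_Apx (T C : ℕ → G) (n : ℕ) :
    vv_Apx T C (n + 1) = T n * C n * (T n)⁻¹ * vv_Apx T C n * (C n)⁻¹ := by
  simp only [vv_Apx, dn]
  group

theorem vv_cm_Apx (T C : ℕ → G) (n : ℕ) :
    cm_Apx (fun j => (vv_Apx T C j)⁻¹ * T j) C n = vv_Apx T C n := by
  induction n with
  | zero => simp [cm_Apx, vv_Apx, dn]
  | succ n ih =>
    rw [cm_succ_Apx, ih, vv_succ_Apx]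
    group

theorem cm_vv_Apx (A C : ℕ → G) (n : ℕ) :
    vv_Apx (fun j => cm_Apx A C j * A j) C n = cm_Apx A C n := by
  induction n with
  | zero => simp [cm_Apx, vv_Apx, dn]
  | succ n ih =>
    rw [cm_succ_Apx, vv_succ_Apx, ih]
    group

theorem dn_mem_Apx (H : Subgroup G) (p : ℕ → G) (n : ℕ) (h : ∀ j < n, p j ∈ H) : dn p n ∈ H := by
  induction n with
  | zero => exact one_mem _
  | succ n ih => exact mul_mem (h n (by omega)) (ih fun j hj => h j (by omega))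

theorem dn_conj_Apx (s : G) (p C : ℕ → G) (n : ℕ) (h : ∀ j < n, p j = s * C j * s⁻¹) :
    dn p n = s * dn C n * s⁻¹ := by
  induction n with
  | zero => simp [dn]
  | succ n ih =>
    rw [dn, dn, h n (by omega), ih fun j hj => h j (by omega)]
    group

variable (Y : Type) [MulAction G Y]

/-- `g` on the first copy, `k` on the second -/
def two_Apx (g k : G) : Perm (Y × Bool) := prodCongrLeft fun x => MulAction.toPerm (cond x k g)

theorem two_apply_Apx (g k : G) (y : Y) (x : Bool) :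
    two_Apx Y g k (y, x) = (cond x k g • y, x) := rfl

theorem two_dn_Apx (p q : ℕ → G) (n : ℕ) :
    dn (fun j => two_Apx Y (p j) (q j)) n = two_Apx Y (dn p n) (dn q n) := by
  induction n with
  | zero => ext1 ⟨y, x⟩; cases x <;> simp [dn, two_apply_Apx]
  | succ n ih =>
    rw [dn, ih]
    ext1 ⟨y, x⟩
    cases x <;> simp [dn, two_apply_Apx, mul_smul]

/-- exchange of the two copies along `g` -/
def sw_Apx (g : G) : Perm (Y × Bool) :=
  Function.Involutive.toPerm (fun z => (cond z.2 g⁻¹ g • z.1, !z.2)) fun ⟨y, x⟩ => by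
    cases x <;> simp

theorem sw_apply_Apx (g : G) (y : Y) (x : Bool) :
    sw_Apx Y g (y, x) = (cond x g⁻¹ g • y, !x) := rfl

theorem sw_sw_Apx (g : G) : sw_Apx Y g * sw_Apx Y g = 1 := by
  ext1 ⟨y, x⟩
  cases x <;> simp [sw_apply_Apx]

theorem sw_two_Apx (g c : G) :
    sw_Apx Y g * two_Apx Y c (g * c * g⁻¹) = two_Apx Y c (g * c * g⁻¹) * sw_Apx Y g := by
  ext1 ⟨y, x⟩
  cases x <;> simp [sw_apply_Apx, two_apply_Apx, mul_smul]

end

theorem apx_pf (hC : CMP_st) (hI : INV_st) : APX_st := by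
  intro h h2
  obtain ⟨a, ha⟩ : ∃ a : ℕ → Surf h, ∀ i : Fin h, a i = gen h (Sum.inl i) :=
    ⟨fun j => if hj : j < h then gen h (Sum.inl ⟨j, hj⟩) else 1, fun i => dif_pos i.2⟩
  obtain ⟨b, hb⟩ : ∃ b : ℕ → Surf h, ∀ i : Fin h, b i = gen h (Sum.inr i) :=
    ⟨fun j => if hj : j < h then gen h (Sum.inr ⟨j, hj⟩) else 1, fun i => dif_pos i.2⟩
  obtain ⟨t, ht⟩ : ∃ t : ℕ → Surf h, t = fun j => cm_Apx a b j * a j := ⟨_, rfl⟩
  have hv : ∀ n, vv_Apx t b n = cm_Apx a b n := fun n => ht ▸ cm_vv_Apx a b n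
  have hd : dn (fun j => t j * b j * (t j)⁻¹) h = 1 * dn b h * 1⁻¹ := by
    have e := gen_rel h
    rw [lift_surfRel] at e
    have e2 : cm_Apx a b h = 1 := by simpa only [cm_Apx, ha, hb] using e
    rw [← hv, vv_Apx, mul_inv_eq_one] at e2
    rw [e2, one_mul, inv_one, mul_one]
  refine ⟨{g | ∃ j < h, g = b j ∨ g = t j}, ?_, fun Y _ B hB => ?_⟩
  · have top : Subgroup.closure (Set.range (gen h)) = ⊤ := PresentedGroup.closure_range_of _
    rw [eq_top_iff, ← top, Subgroup.closure_le]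
    have m1 : ∀ j < h, b j ∈ Subgroup.closure {g | ∃ j < h, g = b j ∨ g = t j} := fun j hj =>
      Subgroup.subset_closure ⟨j, hj, Or.inl rfl⟩
    have m2 : ∀ j < h, t j ∈ Subgroup.closure {g | ∃ j < h, g = b j ∨ g = t j} := fun j hj =>
      Subgroup.subset_closure ⟨j, hj, Or.inr rfl⟩
    rintro _ ⟨i | i, rfl⟩
    · have e : gen h (Sum.inl i) = (vv_Apx t b i)⁻¹ * t i := by
        rw [hv, congrFun ht i, inv_mul_cancel_left, ha]
      have i2 := i.2
      rw [e]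
      exact mul_mem (inv_mem (mul_mem (dn_mem_Apx _ _ _ fun j hj => mul_mem (mul_mem
        (m2 j (by omega)) (m1 j (by omega))) (inv_mem (m2 j (by omega))))
        (inv_mem (dn_mem_Apx _ _ _ fun j hj => m1 j (by omega))))) (m2 i i2)
    · rw [← hb]
      exact m1 i i.2
  obtain ⟨X, _, C, e, e1, e2, e3⟩ := hC h h2 (Y × Bool)
    (fun j => two_Apx Y (b j) (t j * b j * (t j)⁻¹)) (B ×ˢ Set.univ) (hB.prod Set.finite_univ)
  rw [two_dn_Apx, hd] at e3
  obtain ⟨s, -, s2, s3⟩ := hI _ _ _ _ _ _ _ e3 (sw_sw_Apx Y (1 : Surf h)) (sw_two_Apx Y _ _)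
  choose! r r1 r2 r3 using fun j hj =>
    hI _ _ _ _ _ _ _ (e2 j hj).1 (sw_sw_Apx Y (t j)) (sw_two_Apx Y _ _)
  obtain ⟨T, hT⟩ : ∃ T : ℕ → Perm X, T = fun j => s * r j := ⟨_, rfl⟩
  have hV : vv_Apx T C h = 1 := by
    rw [vv_Apx, dn_conj_Apx s _ C h fun j hj => ?_, s2, mul_inv_cancel_right, mul_inv_cancel]
    rw [hT, mul_assoc s, r2 j hj]
    group
  have hrel : ∀ w ∈ ({surfRel h} : Set (FreeGroup (Fin h ⊕ Fin h))), FreeGroup.lift
      (Sum.elim (fun i : Fin h => (vv_Apx T C i)⁻¹ * T i) fun i : Fin h => C i) w = 1 := by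
    rintro w rfl
    rw [lift_surfRel, ← hV, ← vv_cm_Apx]
    rfl
  obtain ⟨ρ, ρa, ρb⟩ : ∃ ρ : Surf h →* Perm X, (∀ j < h, ρ (a j) = (vv_Apx T C j)⁻¹ * T j) ∧
      ∀ j < h, ρ (b j) = C j :=
    ⟨PresentedGroup.toGroup hrel, fun j hj => (congrArg _ (ha ⟨j, hj⟩)).trans
      (PresentedGroup.toGroup.of hrel), fun j hj => (congrArg _ (hb ⟨j, hj⟩)).trans
      (PresentedGroup.toGroup.of hrel)⟩
  have ρv : ∀ n ≤ h, ρ (cm_Apx a b n) = vv_Apx T C n := fun n hn => by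
    rw [← vv_cm_Apx]
    induction n with
    | zero => simp [cm_Apx]
    | succ n ih =>
      rw [cm_succ_Apx, cm_succ_Apx, map_mul, ih (by omega)]
      simp only [map_mul, map_inv, ρa n hn, ρb n hn]
  refine ⟨X, inferInstance, ρ, fun y => e (y, false), fun y hy y' hy' q =>
    congrArg Prod.fst (e1 ⟨hy, trivial⟩ ⟨hy', trivial⟩ q), ?_⟩
  rintro _ ⟨j, hj, rfl | rfl⟩ y hy hy'
  · rw [ρb j hj]
    exact (e2 j hj).2 (y, false) ⟨hy, trivial⟩ ⟨hy', trivial⟩
  · have q : ρ (t j) = s * r j := by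
      rw [congrFun ht j, map_mul, ρv j hj.le, ρa j hj, mul_inv_cancel_left, hT]
    have q1 := r3 j hj (y, false) ⟨hy, trivial⟩ ⟨hy', trivial⟩
    have q2 := s3 (t j • y, true) ⟨hy', trivial⟩ ⟨by simpa [sw_apply_Apx] using hy', trivial⟩
    rw [q, Perm.mul_apply, q1]
    simpa [sw_apply_Apx] using q2

end Pool.Agent.MP_692752_al.PP

end

section

/-! Centralisers of subgroups of finite index of a surface group, level by level. -/

set_option autoImplicit false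

namespace Pool.Agent.MP_692752_al.PP

open Equiv

/-- left translation on the first factor -/
def tr_CFS (V Γ : Type) [Group V] : V →* Perm (V × Γ) where
  toFun g := Equiv.prodCongr (Equiv.mulLeft g) (Equiv.refl Γ)
  map_one' := by
    ext x <;> simp
  map_mul' a b := by
    ext x <;> simp [mul_assoc]

/-- translation of the second factor by a function of the first -/
def tw_CFS {V Γ : Type} [Group Γ] (k : V → Γ) : Perm (V × Γ) where
  toFun x := (x.1, k x.1 * x.2)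
  invFun x := (x.1, (k x.1)⁻¹ * x.2)
  left_inv x := by simp
  right_inv x := by simp

theorem act_CFS {n : ℕ} {V Γ : Type} [Group V] [Group Γ] (π : Surf n →* V) (i : Fin n)
    (k : V → Γ) (hk : ∀ v, k (π (gen n (Sum.inr i)) * v) = k v) :
    ∃ ρ : Surf n →* Perm (V × Γ), (∀ z, ∃ κ : V → Γ, ∀ v c, ρ z (v, c) = (π z * v, κ v * c)) ∧
      ∀ v c, ρ (gen n (Sum.inl i)) (v, c) = (π (gen n (Sum.inl i)) * v, k v * c) := by
  classical
  let K : Fin n ⊕ Fin n → V → Γ := fun j => if j = Sum.inl i then k else fun _ => 1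
  let σ : Fin n ⊕ Fin n → Perm (V × Γ) := fun j => tr_CFS V Γ (π (gen n j)) * tw_CFS (K j)
  have h0 : ∀ j v c, σ j (v, c) = (π (gen n j) * v, K j v * c) := fun _ _ _ => rfl
  have h1 : ∀ j, σ (Sum.inr j) = tr_CFS V Γ (π (gen n (Sum.inr j))) := fun j => by
    ext ⟨v, c⟩ : 1
    rw [h0]
    simp [K, tr_CFS]
  have h2 : ∀ j, tw_CFS (K (Sum.inl j)) * tr_CFS V Γ (π (gen n (Sum.inr j))) =
      tr_CFS V Γ (π (gen n (Sum.inr j))) * tw_CFS (K (Sum.inl j)) := fun j => by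
    ext ⟨v, c⟩ : 1
    by_cases h : j = i
    · subst h
      simp [K, tr_CFS, tw_CFS, hk]
    · simp [K, tr_CFS, tw_CFS, h]
  have h3 : ∀ r ∈ ({surfRel n} : Set (FreeGroup (Fin n ⊕ Fin n))), FreeGroup.lift σ r = 1 := by
    rintro r rfl
    have e := congrArg ((tr_CFS V Γ).comp π) (gen_rel n)
    rw [lift_surfRel, map_list_prod, List.map_ofFn, map_one] at e
    rw [lift_surfRel, ← e]
    congr 2
    funext j
    simp only [h1, Function.comp, map_mul, map_inv, MonoidHom.comp_apply]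
    simp only [σ]
    rw [mul_assoc _ (tw_CFS _), h2]
    group
  let ρ : Surf n →* Perm (V × Γ) := PresentedGroup.toGroup h3
  have h4 : ∀ j, ρ (gen n j) = σ j := fun j => PresentedGroup.toGroup.of h3
  let S : Subgroup (Surf n) :=
    { carrier := {z | ∃ κ : V → Γ, ∀ v c, ρ z (v, c) = (π z * v, κ v * c)}
      one_mem' := ⟨fun _ => 1, fun v c => by simp⟩
      mul_mem' := fun {a b} ⟨κ, ha⟩ ⟨κ', hb⟩ => ⟨fun v => κ (π b * v) * κ' v, fun v c => by
        rw [map_mul, Perm.mul_apply, hb, ha, map_mul, mul_assoc, mul_assoc]⟩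
      inv_mem' := fun {a} ⟨κ, ha⟩ => ⟨fun v => (κ ((π a)⁻¹ * v))⁻¹, fun v c => by
        rw [map_inv, Perm.inv_eq_iff_eq, ha, map_inv]
        simp⟩ }
  refine ⟨ρ, fun z => PresentedGroup.generated_by _ S (fun j => ⟨K j, fun v c => ?_⟩) z,
    fun v c => ?_⟩
  · exact (DFunLike.congr_fun (h4 j) (v, c)).trans (h0 j v c)
  · rw [h4, h0]
    simp [K]

theorem cent_CFS {n : ℕ} {V : Type} [Group V] [Finite V] (π : Surf n →* V) (i : Fin n) {N : ℕ}
    (hN : N ≠ 0) (h1 : π (gen n (Sum.inl i)) ^ N = 1)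
    (h2 : ∀ s, s < N → π (gen n (Sum.inl i)) ^ s ∈ Subgroup.zpowers (π (gen n (Sum.inr i))) →
      s = 0) :
    ∃ m', ∀ w, Eqv m' (w * gen n (Sum.inl i) ^ N) (gen n (Sum.inl i) ^ N * w) →
      ∃ (s : ℕ) (t : ℤ), π (gen n (Sum.inl i)) ^ s * π w = π (gen n (Sum.inr i)) ^ t := by
  classical
  let k : V → Multiplicative (ZMod 2) := fun v =>
    if v ∈ Subgroup.zpowers (π (gen n (Sum.inr i))) then Multiplicative.ofAdd 1 else 1
  obtain ⟨ρ, a1, a2⟩ := act_CFS π i k fun v => by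
    simp only [k, Subgroup.mul_mem_cancel_left _ (Subgroup.mem_zpowers (π (gen n (Sum.inr i))))]
  have a3 : ∀ (s : ℕ) v c, ρ (gen n (Sum.inl i) ^ s) (v, c) = (π (gen n (Sum.inl i)) ^ s * v,
      (∏ j ∈ Finset.range s, k (π (gen n (Sum.inl i)) ^ j * v)) * c) := fun s v c => by
    induction s with
    | zero => simp
    | succ s ih =>
      rw [pow_succ', map_mul, Perm.mul_apply, ih, a2, Finset.prod_range_succ,
        pow_succ', mul_assoc, ← mul_assoc (k _), mul_comm (k _)]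
  refine ⟨Nat.card (V × Multiplicative (ZMod 2)), fun w hw => ?_⟩
  obtain ⟨κ, a4⟩ := a1 w
  have b := congrArg Prod.snd (DFunLike.congr_fun (hw.perm le_rfl ρ) (1, 1))
  rw [map_mul, map_mul, Perm.mul_apply, Perm.mul_apply, a3, a4, a4,
    a3, h1, Finset.prod_eq_single 0 (fun j hj h0 => if_neg fun e =>
      h0 (h2 j (Finset.mem_range.1 hj) (by simpa using e)))
      fun e => absurd (Finset.mem_range.2 (Nat.pos_of_ne_zero hN)) e] at b
  by_contra e
  rw [Finset.prod_eq_one fun j _ => if_neg fun ⟨t, ht⟩ => e ⟨j, t, by simpa using ht.symm⟩] at b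
  simp at b

theorem ab_CFS (n : ℕ) {A : Type} [CommGroup A] (f : Fin n ⊕ Fin n → A) :
    ∃ E : Surf n →* A, ∀ j, E (gen n j) = f j := by
  have h : ∀ r ∈ ({surfRel n} : Set (FreeGroup (Fin n ⊕ Fin n))), FreeGroup.lift f r = 1 := by
    rintro r rfl
    rw [lift_surfRel]
    refine List.prod_eq_one fun x hx => ?_
    obtain ⟨j, rfl⟩ := List.mem_ofFn.1 hx
    simp
  exact ⟨PresentedGroup.toGroup h, fun j => PresentedGroup.toGroup.of h⟩

theorem cfs_pf : CFS_st := by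
  intro n hn U hU m
  classical
  obtain ⟨m3, h3⟩ := Lv_le U hU
  have hN := (max m m3).factorial_ne_zero
  have : NeZero (max m m3).factorial := ⟨hN⟩
  have := Lv_fi (surf_fg n) (max m m3)
  obtain ⟨E, hE⟩ := ab_CFS n fun j : Fin n ⊕ Fin n =>
    Multiplicative.ofAdd (Pi.single j 1 : Fin n ⊕ Fin n → ZMod (max m m3).factorial)
  have key := fun i : Fin n => cent_CFS ((QuotientGroup.mk' (Lv (Surf n) (max m m3))).prod E) i hN
    (by
      rw [← map_pow]
      refine Prod.ext ((QuotientGroup.eq_one_iff _).2 (pow_mem_Lv _ _)) ?_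
      refine Multiplicative.toAdd.injective (funext fun j => ?_)
      simp [hE])
    fun s hs ⟨t, ht⟩ => by
      have := congrArg (fun z => z.2.toAdd (Sum.inl i)) ht
      simp only [Prod.pow_snd, MonoidHom.prod_apply, hE, toAdd_pow, toAdd_zpow,
        toAdd_ofAdd] at this
      exact Nat.eq_zero_of_dvd_of_lt ((ZMod.natCast_eq_zero_iff _ _).1
        (by simpa using this.symm)) hs
  let i0 : Fin n := ⟨0, by omega⟩
  let i1 : Fin n := ⟨1, by omega⟩
  have hne : i0 ≠ i1 := by simp [i0, i1]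
  obtain ⟨m0, k0⟩ := key i0
  obtain ⟨m1, k1⟩ := key i1
  have hu : ∀ a : Surf n, a ^ (max m m3).factorial ∈ U := fun a =>
    h3 (Lv_anti (le_max_right _ _) (pow_mem_Lv a _))
  refine ⟨max m0 m1, fun w hw => ?_⟩
  obtain ⟨s, t, e⟩ := k0 w ((hw _ (hu _)).anti (le_max_left _ _))
  obtain ⟨s', t', e'⟩ := k1 w ((hw _ (hu _)).anti (le_max_right _ _))
  have c1 := congrArg (fun z => z.2.toAdd (Sum.inl i0)) e
  have c2 := congrArg (fun z => z.2.toAdd (Sum.inr i0)) e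
  have c3 := congrArg (fun z => z.2.toAdd (Sum.inl i0)) e'
  have c4 := congrArg (fun z => z.2.toAdd (Sum.inr i0)) e'
  simp only [Prod.pow_snd, Prod.snd_mul, MonoidHom.prod_apply, hE, toAdd_pow, toAdd_zpow,
    toAdd_mul, toAdd_ofAdd] at c1 c2 c3 c4
  have d1 : ((max m m3).factorial : ℤ) ∣ (s : ℤ) :=
    (ZMod.intCast_zmod_eq_zero_iff_dvd _ _).1 (by
      have c5 : (E w).toAdd (Sum.inl i0) = 0 := by simpa [hne] using c3
      simpa [c5] using c1)
  have d2 : ((max m m3).factorial : ℤ) ∣ t :=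
    (ZMod.intCast_zmod_eq_zero_iff_dvd _ _).1 (by
      have c5 : (E w).toAdd (Sum.inr i0) = 0 := by simpa [hne] using c4
      simpa [c5] using c2.symm)
  have f1 := zpow_mem_Lv (gen n (Sum.inl i0)) d1
  have f2 := zpow_mem_Lv (gen n (Sum.inr i0)) d2
  have e1 : Eqv (max m m3) (gen n (Sum.inl i0) ^ s * w) (gen n (Sum.inr i0) ^ t) :=
    eqv_iff.2 (QuotientGroup.eq.1 (by simpa using congrArg Prod.fst e))
  rw [zpow_natCast] at f1
  exact Lv_anti (le_max_left _ _) (((Lv _ _).mul_mem_cancel_left f1).1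
    (eqv_one.1 (e1.trans (eqv_one.2 f2))))

end Pool.Agent.MP_692752_al.PP

end

section

set_option autoImplicit false

namespace Pool.Agent.MP_692752_al.PP

open Equiv

section
variable {V : Type} (R : V → V → Prop)

/-- `y` is reached from `x` by `m` steps in every permutation that follows `R` -/
def P_CL (m : ℤ) (x y : V) : Prop := ∀ (Z : Type) (φ : Perm Z) (p : V → Z),
  (∀ x y, R x y → p y = φ (p x)) → (φ ^ m) (p x) = p y

def st_CL (N : ℕ) : Setoid (V × ZMod N) where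
  r a b := ∃ m : ℤ, P_CL R m a.1 b.1 ∧ (m : ZMod N) = a.2 - b.2
  iseqv :=
    { refl := fun a => ⟨0, fun _ _ _ _ => by simp, by simp⟩
      symm := fun ⟨m, h1, h2⟩ => ⟨-m, fun Z φ p hp => by
        rw [← h1 Z φ p hp, ← Perm.mul_apply, ← zpow_add]; simp, by simp [h2]⟩
      trans := fun ⟨m, h1, h2⟩ ⟨n, h3, h4⟩ => ⟨n + m, fun Z φ p hp => by
        rw [zpow_add, Perm.mul_apply, h1 Z φ p hp, h3 Z φ p hp], by simp [h2, h4]⟩ }

def sh_CL (N : ℕ) (k : ZMod N) : Quotient (st_CL R N) → Quotient (st_CL R N) :=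
  Quotient.map' (fun a => (a.1, a.2 + k)) fun _ _ ⟨m, h1, h2⟩ => ⟨m, h1, by simp [h2]⟩

theorem sh_mk_CL (N : ℕ) (k l : ZMod N) (x : V) :
    sh_CL R N k (Quotient.mk _ (x, l)) = Quotient.mk _ (x, l + k) := rfl

def ps_CL (N : ℕ) : Perm (Quotient (st_CL R N)) where
  toFun := sh_CL R N 1
  invFun := sh_CL R N (-1)
  left_inv a := by
    obtain ⟨x, l⟩ := a
    change sh_CL R N _ (sh_CL R N _ (Quotient.mk _ (x, l))) = Quotient.mk _ (x, l)
    simp [sh_mk_CL]
  right_inv a := by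
    obtain ⟨x, l⟩ := a
    change sh_CL R N _ (sh_CL R N _ (Quotient.mk _ (x, l))) = Quotient.mk _ (x, l)
    simp [sh_mk_CL]

theorem ps_mk_CL (N : ℕ) (l : ZMod N) (x : V) :
    ps_CL R N (Quotient.mk _ (x, l)) = Quotient.mk _ (x, l + 1) := rfl

theorem ps_inv_CL (N : ℕ) (l : ZMod N) (x : V) :
    (ps_CL R N)⁻¹ (Quotient.mk _ (x, l)) = Quotient.mk _ (x, l + -1) := rfl

theorem ps_zpow_CL (N : ℕ) (k : ℤ) (l : ZMod N) (x : V) :
    (ps_CL R N ^ k) (Quotient.mk _ (x, l)) = Quotient.mk _ (x, l + k) := by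
  induction k using Int.induction_on generalizing l with
  | zero => simp
  | succ i ih =>
    rw [zpow_add_one, Perm.mul_apply, ps_mk_CL, ih]
    congr 2
    push_cast
    ring
  | pred i ih =>
    rw [zpow_sub_one, Perm.mul_apply, ps_inv_CL, ih]
    congr 2
    push_cast
    ring

theorem ar_CL {d : ℕ} (m : ℤ) (a : ZMod d) : ((Equiv.addRight (1 : ZMod d)) ^ m) a = a + m := by
  induction m using Int.induction_on generalizing a with
  | zero => simp
  | succ i ih =>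
    rw [zpow_add_one, Perm.mul_apply, ih]
    simp only [Equiv.coe_addRight]
    push_cast
    ring
  | pred i ih =>
    rw [zpow_sub_one, Perm.mul_apply, ih, Perm.inv_def, Equiv.addRight_symm]
    simp only [Equiv.coe_addRight]
    push_cast
    ring

end

theorem cl_pf : CL_st := by
  intro V _ R d _ deg h1 h2 h3
  obtain ⟨σ, hσ⟩ := Perm.exists_extending_pair (α := {a : V × V // R a.1 a.2})
    (f := fun a => a.1.1) (g := fun a => a.1.2)
    (fun ⟨⟨x, y⟩, a⟩ ⟨⟨x', y'⟩, b⟩ e => by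
      obtain rfl : x = x' := e
      obtain rfl : y = y' := h1 _ _ _ a b
      rfl)
    (fun ⟨⟨x, y⟩, a⟩ ⟨⟨x', y'⟩, b⟩ e => by
      obtain rfl : y = y' := e
      obtain rfl : x = x' := h2 _ _ _ a b
      rfl)
  have hs : ∀ x y, R x y → y = σ x := fun x y h => (hσ ⟨(x, y), h⟩).symm
  have : NeZero (d * orderOf σ) := ⟨mul_ne_zero (NeZero.ne d) (orderOf_pos σ).ne'⟩
  have hd : d ∣ d * orderOf σ := dvd_mul_right _ _
  have hdg : ∀ a b : V × ZMod (d * orderOf σ), (st_CL R _).r a b →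
      deg a.1 + ZMod.castHom hd (ZMod d) a.2 = deg b.1 + ZMod.castHom hd (ZMod d) b.2 := by
    rintro a b ⟨m, e1, e2⟩
    have e3 := e1 (ZMod d) (Equiv.addRight 1) deg fun x y h => h3 x y h
    rw [ar_CL] at e3
    have e4 := congrArg (ZMod.castHom hd (ZMod d)) e2
    rw [map_intCast, map_sub] at e4
    rw [← e3, e4]
    ring
  refine ⟨Quotient (st_CL R (d * orderOf σ)), inferInstance, ps_CL R _,
    fun x => Quotient.mk _ (x, 0), Quotient.lift _ hdg, d * orderOf σ, fun x y e => ?_,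
    fun x y h => ?_, ?_, fun x => ?_, fun a => ?_, fun Z φ p hp x y k e => ?_⟩
  · obtain ⟨m, e1, e2⟩ := Quotient.exact e
    have e3 := e1 V σ id hs
    rw [sub_self, ZMod.intCast_zmod_eq_zero_iff_dvd] at e2
    have e4 : σ ^ m = 1 := orderOf_dvd_iff_zpow_eq_one.1
      ((Int.natCast_dvd_natCast.2 (dvd_mul_left _ _)).trans e2)
    rw [e4] at e3
    exact e3
  · rw [ps_mk_CL]
    exact Quotient.sound ⟨1, fun Z φ p hp => by rw [zpow_one, hp x y h], by simp⟩
  · ext a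
    obtain ⟨x, l⟩ := a
    have := ps_zpow_CL R (d * orderOf σ) (d * orderOf σ : ℕ) l x
    rw [zpow_natCast, Int.cast_natCast, ZMod.natCast_self, add_zero] at this
    exact this
  · change deg x + ZMod.castHom hd (ZMod d) 0 = deg x
    rw [map_zero, add_zero]
  · obtain ⟨x, l⟩ := a
    change deg x + ZMod.castHom hd (ZMod d) (l + 1) = deg x + ZMod.castHom hd (ZMod d) l + 1
    rw [map_add, map_one, add_assoc]
  · rw [ps_zpow_CL] at e
    obtain ⟨m, e1, e2⟩ := Quotient.exact e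
    refine ⟨m, ?_, e1 Z φ p hp⟩
    rw [← ZMod.intCast_eq_intCast_iff]
    simpa using e2

end Pool.Agent.MP_692752_al.PP

end

section

set_option autoImplicit false

namespace Pool.Agent.MP_692752_al.PP

open Equiv

theorem sq_COS : ∀ x : Multiplicative (ZMod 2), x * x = 1 := by decide

theorem rel_COS (n : ℕ) {V : Type} [Group V] (π : Surf (n + 1) →* V)
    (k0 : V → Multiplicative (ZMod 2)) :
    ∃ f : FreeGroup (Fin (n + 1) ⊕ Fin (n + 1)) →* Perm (V × Multiplicative (ZMod 2)),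
      (∀ g, ∃ j : V → Multiplicative (ZMod 2), ∀ v c,
        f (FreeGroup.of g) (v, c) = (π (gen _ g) * v, j v * c)) ∧
      ∀ v c, f (surfRel (n + 1)) (v, c) = (v, k0 ((π (gen _ (.inl 0)))⁻¹ * v) *
        (k0 ((π (gen _ (.inr 0)))⁻¹ * ((π (gen _ (.inl 0)))⁻¹ * v)))⁻¹ * c) := by
  classical
  set σ : Fin (n + 1) ⊕ Fin (n + 1) → Perm V := fun g => Equiv.mulLeft (π (gen _ g)) with hσ
  set k : Fin (n + 1) ⊕ Fin (n + 1) → V → Multiplicative (ZMod 2) :=
    fun g v => if g = .inl 0 then k0 v else 1 with hk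
  have h1 : ∀ w v, FreeGroup.lift σ w v = π (FreeGroup.lift (gen (n + 1)) w) * v := by
    intro w v
    have : FreeGroup.lift σ =
        (MulAction.toPermHom V V).comp (π.comp (FreeGroup.lift (gen (n + 1)))) :=
      FreeGroup.ext_hom _ _ fun g => by
        ext v
        simp [hσ]
    rw [this]
    rfl
  let H : Subgroup (FreeGroup (Fin (n + 1) ⊕ Fin (n + 1))) :=
    { carrier := {w | ∀ v, coc σ k w v = 1}
      one_mem' := fun v => coc_one σ k v
      mul_mem' := fun {a b} ha hb v => by rw [coc_mul, ha, hb, one_mul]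
      inv_mem' := fun {a} ha v => by rw [coc_inv, ha, inv_one] }
  have h2 : ∀ g, g ≠ .inl 0 → FreeGroup.of g ∈ H := fun g hg v => by
    rw [coc_of]
    exact if_neg hg
  refine ⟨cocP σ k, fun g => ⟨k g, fun v c => cocP_of σ k g (v, c)⟩, fun v c => ?_⟩
  rw [cocP_apply, h1, gen_rel, map_one, one_mul]
  congr 2
  have h3 := gen_rel (n + 1)
  rw [surfRel, List.ofFn_succ, List.prod_cons] at h3 ⊢
  set R := (List.ofFn (fun i : Fin n =>
    FreeGroup.of (Sum.inl i.succ : Fin (n + 1) ⊕ Fin (n + 1)) * FreeGroup.of (Sum.inr i.succ) *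
      (FreeGroup.of (Sum.inl i.succ))⁻¹ * (FreeGroup.of (Sum.inr i.succ))⁻¹)).prod with hR
  have h4 : R ∈ H := by
    refine H.list_prod_mem (fun x hx => ?_)
    obtain ⟨i, rfl⟩ := List.mem_ofFn.mp hx
    have a1 := h2 (.inl i.succ) (by simp [Fin.succ_ne_zero])
    have a2 := h2 (.inr i.succ) (by simp)
    exact H.mul_mem (H.mul_mem (H.mul_mem a1 a2) (H.inv_mem a1)) (H.inv_mem a2)
  have h5 := h2 (.inr 0) (by simp)
  have h6 := congrArg π (eq_inv_of_mul_eq_one_right ((map_mul _ _ _).symm.trans h3))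
  rw [coc_mul, h4 v, mul_one, coc_mul, H.inv_mem h5, mul_one, coc_mul, coc_mul, h5, mul_one,
    coc_inv, coc_of, coc_of]
  simp only [h1]
  simp only [h6, hk, if_true, map_mul, map_inv, FreeGroup.lift_apply_of]
  congr 2
  · group
  · congr 1
    group

theorem main_COS (n : ℕ) {V : Type} [Group V] (π : Surf (n + 1) →* V)
    (hβ : π (gen _ (.inr 0)) * π (gen _ (.inr 0)) ≠ 1) :
    ∃ Φ : Surf (n + 1 + (n + 1)) →* Perm (V × Multiplicative (ZMod 2)),
      ∀ u, Φ (turn _ u) = Φ u → π (fold _ u) = 1 := by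
  classical
  obtain ⟨f, hf1, hf2⟩ := rel_COS n π (fun v => if v = 1 then Multiplicative.ofAdd 1 else 1)
  set α := π (gen _ (.inl 0)) with hα
  set β := π (gen _ (.inr 0)) with hβ'
  set κ : V → Multiplicative (ZMod 2) := fun v =>
    (if α⁻¹ * v = 1 then Multiplicative.ofAdd 1 else 1) *
      (if β⁻¹ * (α⁻¹ * v) = 1 then Multiplicative.ofAdd 1 else 1)⁻¹ with hκ
  set F := f (surfRel (n + 1)) with hF
  have hF1 : ∀ v c, F (v, c) = (v, κ v * c) := hf2
  have hFF : F * F = 1 := by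
    ext1 ⟨v, c⟩
    rw [Perm.mul_apply, hF1, hF1, ← mul_assoc, sq_COS, one_mul, Perm.one_apply]
  have hFi : F⁻¹ = F := inv_eq_of_mul_eq_one_right hFF
  let φ : Fin (n + 1 + (n + 1)) ⊕ Fin (n + 1 + (n + 1)) → Perm (V × Multiplicative (ZMod 2)) :=
    Sum.elim (Fin.addCases (fun i => f (.of (.inl i))) (fun i => F * f (.of (.inl i)) * F⁻¹))
      (Fin.addCases (fun i => f (.of (.inr i))) (fun i => F * f (.of (.inr i)) * F⁻¹))
  have hφ : ∀ r ∈ ({surfRel (n + 1 + (n + 1))} : Set (FreeGroup _)), FreeGroup.lift φ r = 1 := by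
    rintro r rfl
    have e1 : FreeGroup.lift (fun i => φ (Sum.map (Fin.castAdd _) (Fin.castAdd _) i)) = f :=
      FreeGroup.ext_hom _ _ fun g => by cases g <;> simp [φ]
    have e2 : FreeGroup.lift (fun i => φ (Sum.map (Fin.natAdd _) (Fin.natAdd _) i)) =
        (MulAut.conj F).toMonoidHom.comp f :=
      FreeGroup.ext_hom _ _ fun g => by
        cases g <;> simp only [φ, FreeGroup.lift_apply_of, Sum.map_inl, Sum.map_inr, Sum.elim_inl,
          Sum.elim_inr, Fin.addCases_right] <;> rfl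
    rw [lift_add, e1, e2]
    show F * (F * F * F⁻¹) = 1
    rw [hFF, one_mul, mul_inv_cancel]
  let Φ : Surf (n + 1 + (n + 1)) →* Perm (V × Multiplicative (ZMod 2)) :=
    PresentedGroup.toGroup hφ
  have hΦ : ∀ g, Φ (gen _ g) = φ g := fun g => PresentedGroup.toGroup.of hφ
  have ht : ∀ g, turn (n + 1) (PresentedGroup.of g) = gen _ (Sum.map finAddFlip finAddFlip g) :=
    fun g => PresentedGroup.toGroup.of (turn_rel _)
  have hfo : ∀ g, fold (n + 1) (gen _ g) =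
      gen _ (Sum.map (Fin.addCases id id) (Fin.addCases id id) g) :=
    fun g => PresentedGroup.toGroup.of (fold_rel _)
  have hc : ∀ x, x = F * (F * x * F⁻¹) * F⁻¹ := by
    intro x
    rw [hFi, ← mul_assoc, ← mul_assoc, hFF, one_mul, mul_assoc, hFF, mul_one]
  have h1 : Φ.comp (turn (n + 1)) = (MulAut.conj F).toMonoidHom.comp Φ := by
    refine PresentedGroup.ext (fun g => ?_)
    show Φ (turn (n + 1) (PresentedGroup.of g)) = F * Φ (gen _ g) * F⁻¹
    rw [ht, hΦ, hΦ]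
    rcases g with i | i <;> induction i using Fin.addCases <;>
      simp only [φ, Sum.map_inl, Sum.map_inr, Sum.elim_inl, Sum.elim_inr, Fin.addCases_left,
        Fin.addCases_right, finAddFlip_apply_castAdd, finAddFlip_apply_natAdd] <;> exact hc _
  let H : Subgroup (Surf (n + 1 + (n + 1))) :=
    { carrier := {z | ∃ j : V → Multiplicative (ZMod 2), ∀ v c,
        Φ z (v, c) = (π (fold _ z) * v, j v * c)}
      one_mem' := ⟨fun _ => 1, fun v c => by simp⟩
      mul_mem' := by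
        rintro a b ⟨j, hj⟩ ⟨j', hj'⟩
        refine ⟨fun v => j (π (fold _ b) * v) * j' v, fun v c => ?_⟩
        rw [map_mul, Perm.mul_apply, hj', hj, map_mul, map_mul, mul_assoc, mul_assoc]
      inv_mem' := by
        rintro a ⟨j, hj⟩
        refine ⟨fun v => (j ((π (fold _ a))⁻¹ * v))⁻¹, fun v c => ?_⟩
        rw [map_inv, map_inv, map_inv, Perm.inv_eq_iff_eq, hj]
        simp }
  have h2 : ∀ z, z ∈ H := by
    refine PresentedGroup.generated_by _ H (fun g => ?_)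
    have a1 : ∀ g' : Fin (n + 1) ⊕ Fin (n + 1), ∃ j : V → Multiplicative (ZMod 2), ∀ v c,
        (F * f (.of g') * F⁻¹) (v, c) = (π (gen _ g') * v, j v * c) := by
      intro g'
      obtain ⟨j, hj⟩ := hf1 g'
      refine ⟨fun v => κ (π (gen _ g') * v) * (j v * κ v), fun v c => ?_⟩
      rw [hFi, Perm.mul_apply, Perm.mul_apply, hF1, hj, hF1]
      simp only [mul_assoc]
    show ∃ j : V → Multiplicative (ZMod 2), ∀ v c,
      Φ (gen _ g) (v, c) = (π (fold _ (gen _ g)) * v, j v * c)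
    rw [hΦ, hfo]
    rcases g with i | i <;> induction i using Fin.addCases <;>
      simp only [φ, Sum.map_inl, Sum.map_inr, Sum.elim_inl, Sum.elim_inr, Fin.addCases_left,
        Fin.addCases_right, id]
    exacts [hf1 _, a1 _, hf1 _, a1 _]
  refine ⟨Φ, fun u hu => ?_⟩
  obtain ⟨j, hj⟩ := h2 u
  set lam := π (fold _ u) with hlam
  have h3 : Φ u = F * Φ u * F⁻¹ := hu.symm.trans (DFunLike.congr_fun h1 u)
  have h4 : ∀ v, κ (lam * v) = κ v := by
    intro v
    have h5 := DFunLike.congr_fun (mul_inv_eq_iff_eq_mul.mp h3.symm) (v, 1)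
    rw [Perm.mul_apply, Perm.mul_apply, hF1, hj, hj, hF1] at h5
    have h6 := congrArg Prod.snd h5
    simp only [mul_one] at h6
    rw [mul_comm (j v)] at h6
    exact mul_right_cancel h6
  have h5 : ∀ v, κ v ≠ 1 → v = α ∨ v = α * β := by
    intro v hv
    by_contra hcon
    rw [not_or] at hcon
    apply hv
    have b1 : ¬ α⁻¹ * v = 1 := fun h => hcon.1 (inv_mul_eq_one.mp h).symm
    have b2 : ¬ β⁻¹ * (α⁻¹ * v) = 1 := fun h =>
      hcon.2 (inv_mul_eq_iff_eq_mul.mp (inv_mul_eq_one.mp h).symm)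
    simp only [hκ, if_neg b1, if_neg b2, inv_one, mul_one]
  have hβ1 : β ≠ 1 := fun h => hβ (by rw [h, mul_one])
  have h6 : κ α ≠ 1 := by
    simp only [hκ, inv_mul_cancel, mul_one, inv_eq_one, if_neg hβ1, if_true, inv_one]
    decide
  have h7 : κ (α * β) ≠ 1 := by
    simp only [hκ, inv_mul_cancel_left, inv_mul_cancel, if_neg hβ1, if_true, one_mul]
    decide
  rcases h5 _ ((h4 α).trans_ne h6) with h | h
  · exact mul_eq_right.mp h
  · rcases h5 _ ((h4 (α * β)).trans_ne h7) with h' | h'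
    · rw [← mul_assoc, h, mul_assoc] at h'
      exact absurd (mul_eq_left.mp h') hβ
    · exact mul_eq_right.mp h'

theorem cos_pf : COS_st := by
  intro h hh m
  obtain ⟨n, rfl⟩ : ∃ n, h = n + 1 := ⟨h - 1, by omega⟩
  have hη : ∀ r ∈ ({surfRel (n + 1)} : Set (FreeGroup _)),
      FreeGroup.lift (fun _ => (Multiplicative.ofAdd 1 : Multiplicative (ZMod 3))) r = 1 := by
    rintro r rfl
    rw [lift_surfRel]
    simp
  let η : Surf (n + 1) →* Multiplicative (ZMod 3) := PresentedGroup.toGroup hη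
  have hη1 : ∀ g, η (gen _ g) = Multiplicative.ofAdd 1 := fun g => PresentedGroup.toGroup.of hη
  refine ⟨Nat.card ((Perm (Fin m) × Multiplicative (ZMod 3)) × Multiplicative (ZMod 2)),
    fun u hu => mem_Lv.2 fun f => ?_⟩
  obtain ⟨Φ, hΦ⟩ := main_COS n (f.prod η) (fun e => by
    have := congrArg Prod.snd e
    simp only [MonoidHom.prod_apply, Prod.snd_mul, hη1, Prod.snd_one] at this
    revert this
    decide)
  exact congrArg Prod.fst (hΦ u (hu.perm le_rfl Φ))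

end Pool.Agent.MP_692752_al.PP

end

section

/-! The pushes form a closed set. -/

set_option autoImplicit false

namespace Pool.Agent.MP_692752_al.PP

open Equiv

/-- an endomorphism that is inner at every level is inner -/
theorem inner_Clo {G : Type} [Group G] (h : GrP G) (f : G →* G)
    (hf : ∀ m, ∃ c : G, ∀ z, Eqv m (f z) (c * z * c⁻¹)) : ∃ v : G, ∀ z, f z = v * z * v⁻¹ := by
  obtain ⟨v, hv⟩ := h ⊤ inferInstance (f.comp (Subgroup.subtype ⊤)) fun m => by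
    obtain ⟨c, hc⟩ := hf m
    exact ⟨c, fun u => hc u⟩
  exact ⟨v, fun z => hv ⟨z, Subgroup.mem_top z⟩⟩

theorem cen_Clo {G : Type} [Group G] (h : CFG G) (m : ℕ) : ∃ m', ∀ c v : G,
    (∀ z, Eqv m' (v * z * v⁻¹) (c * z * c⁻¹)) → Eqv m c v := by
  obtain ⟨m', hm⟩ := h ⊤ inferInstance m
  refine ⟨m', fun c v hz => eqv_iff.2 (hm _ fun z _ => ?_)⟩
  have h1 := ((Eqv.refl c⁻¹).mul (hz z)).mul (Eqv.refl v)
  exact ((Eqv.of_eq (by group)).trans h1).trans (Eqv.of_eq (by group))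

theorem clo_pf : Clo_st := by
  intro G Λ _ _ d U hU γ h
  have H : ∀ m, ∃ u β w, d.Psh w β ∧ ∀ z, Eqv m (γ z) (u * β z * u⁻¹) := fun m => by
    obtain ⟨m', hm⟩ := ug_of d.cf U hU m
    obtain ⟨u, β, w, hp, hx⟩ := h m'
    refine ⟨u, β, w, hp, fun z => ?_⟩
    have h1 := hm (γ⁻¹ * MulAut.conj u * β : MulAut G).toMonoidHom (fun x hxU => by
      have := ((hx x hxU).aut γ.symm).symm
      rw [MulEquiv.symm_apply_apply] at this
      exact this) z
    have h2 := (h1.aut γ).symm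
    exact h2.trans (Eqv.of_eq (MulEquiv.apply_symm_apply γ _))
  let f : G →* G := γ.toMonoidHom.comp (d.ι.comp (γ.symm.toMonoidHom.comp d.ι))
  have hf : ∀ z, f z = γ (d.ι (γ.symm (d.ι z))) := fun z => rfl
  have H2 : ∀ m, ∃ u : G, ∀ z, Eqv m (f z) (u * (d.ι u)⁻¹ * z * (u * (d.ι u)⁻¹)⁻¹) := fun m => by
    obtain ⟨u, β, w, hp, hz⟩ := H m
    refine ⟨u, fun z => ?_⟩
    have h1 := hz (d.ι (γ.symm (d.ι z)))
    have h2 := (hz (γ.symm (d.ι z))).map d.ι
    rw [MulEquiv.apply_symm_apply, d.ιι, map_mul, map_mul, map_inv, ← hp.1] at h2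
    have h3 := ((Eqv.refl (u * (d.ι u)⁻¹)).mul h2).mul (Eqv.refl (u * (d.ι u)⁻¹)⁻¹)
    rw [hf]
    exact (h1.trans (Eqv.of_eq (by group))).trans h3.symm
  obtain ⟨v, hv⟩ := inner_Clo d.gr f fun m => (H2 m).elim fun u hu => ⟨_, hu⟩
  have hγ : ∀ x, γ (d.ι x) = v * d.ι (γ x) * v⁻¹ := fun x => by
    rw [← hv, hf, d.ιι, MulEquiv.symm_apply_apply]
  have hvv : v * d.ι v = 1 := d.rf _ fun m => by
    obtain ⟨m', hm⟩ := cen_Clo d.cf m
    refine eqv_one.1 (hm 1 _ fun z => Eqv.of_eq ?_).symm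
    have h1 := hγ (d.ι (γ.symm z))
    rw [d.ιι, hγ, MulEquiv.apply_symm_apply, map_mul, map_mul, map_inv, d.ιι] at h1
    rw [one_mul, inv_one, mul_one]
    exact Eq.trans (by group) h1.symm
  obtain ⟨u, hu | hu⟩ := d.tor v hvv
  swap
  · obtain ⟨m, hm⟩ := d.nr
    obtain ⟨m', hm'⟩ := cen_Clo d.cf m
    obtain ⟨u', hu'⟩ := H2 m'
    have h1 := hm' _ v fun z => hv z ▸ hu' z
    have h2 := ((Eqv.refl u⁻¹).mul h1.symm).mul (Eqv.refl (d.ι u))
    refine (hm (u⁻¹ * u') (((Eqv.of_eq ?_).trans h2).trans (Eqv.of_eq ?_))).elim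
    · rw [hu]; group
    · rw [map_mul, map_inv]; group
  have H3 : ∀ m, ∃ c : Λ, ∀ z, Eqv m (d.q (γ z)) (c * d.q z * c⁻¹) := fun m => by
    obtain ⟨u', β, w, hp, hz⟩ := H m
    refine ⟨d.q u' * w, fun z => ((hz z).map d.q).trans (Eqv.of_eq ?_)⟩
    rw [map_mul, map_mul, map_inv, hp.2]
    group
  have hk : d.q.ker ≤ (d.q.comp γ.toMonoidHom).ker := fun z hz => d.rf' _ fun m => by
    obtain ⟨c, hc⟩ := H3 m
    refine eqv_one.1 ((hc z).trans (Eqv.of_eq ?_))
    rw [MonoidHom.mem_ker.1 hz]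
    group
  let F : Λ →* Λ := d.q.liftOfSurjective d.qs ⟨_, hk⟩
  have hF : ∀ z, F (d.q z) = d.q (γ z) := fun z =>
    MonoidHom.liftOfRightInverse_comp_apply _ _ _ _ z
  obtain ⟨w, hw⟩ := inner_Clo d.gr' F fun m => by
    obtain ⟨c, hc⟩ := H3 m
    refine ⟨c, fun y => ?_⟩
    obtain ⟨z, rfl⟩ := d.qs y
    rw [hF]
    exact hc z
  have hβ : ∀ z, (MulAut.conj u⁻¹ * γ : MulAut G) z = u⁻¹ * γ z * u := fun z => by
    rw [MulAut.mul_apply, MulAut.conj_apply, inv_inv]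
  refine ⟨u, MulAut.conj u⁻¹ * γ, (d.q u)⁻¹ * w, ⟨fun z => ?_, fun z => ?_⟩, fun x => ?_⟩
  · rw [hβ, hβ, hγ, map_mul, map_mul, map_inv, hu]
    group
  · rw [hβ, map_mul, map_mul, map_inv, ← hF, hw]
    group
  · rw [hβ]
    group

end Pool.Agent.MP_692752_al.PP

end

section

/-! Completion of a finite piece of an action of a free group, with tame cycles. -/

set_option autoImplicit false

namespace Pool.Agent.MP_692752_al.PP

open Equiv Function

theorem semi_Cmp {A B : Type} (f : A → B) (φ : Perm A) (ψ : Perm B) (p : A → Prop)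
    (hp : ∀ a, p (φ a) ↔ p a) (h : ∀ a, p a → ψ (f a) = f (φ a)) (k : ℤ) :
    ∀ a, p a → p ((φ ^ k) a) ∧ (ψ ^ k) (f a) = f ((φ ^ k) a) := by
  induction k using Int.induction_on with
  | zero => exact fun a ha => ⟨ha, rfl⟩
  | succ k ih =>
    intro a ha
    rw [zpow_add_one, zpow_add_one, Perm.mul_apply, Perm.mul_apply, h a ha]
    exact ih _ ((hp a).2 ha)
  | pred k ih =>
    intro a ha
    have h1 : p (φ⁻¹ a) := (hp _).1 (by simpa using ha)
    have h2 : ψ⁻¹ (f a) = f (φ⁻¹ a) := by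
      rw [Perm.inv_eq_iff_eq, h _ h1]
      simp
    rw [zpow_sub_one, zpow_sub_one, Perm.mul_apply, Perm.mul_apply, h2]
    exact ih _ h1

theorem chain_Cmp {Z X : Type} {V : Set Z} (φ : Perm Z) (ψ : Perm X) (ι : V → X)
    (hR : ∀ x y : V, (y : Z) = φ x → ψ (ι x) = ι y) (y : V) (k : ℤ) :
    ∀ y' : V, (∀ i ∈ Set.uIcc 0 k, (φ ^ i) y ∈ V) → (φ ^ k) y = y' → (ψ ^ k) (ι y) = ι y' := by
  induction k using Int.induction_on with
  | zero =>
    intro y' _ e
    rw [show y' = y from Subtype.ext e.symm]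
    rfl
  | succ k ih =>
    intro y' hs e
    have h1 : (φ ^ (k : ℤ)) y ∈ V := hs _ (Set.mem_uIcc.2 (Or.inl ⟨by omega, by omega⟩))
    have h2 := ih ⟨_, h1⟩ (fun i hi => hs i (by
      rw [Set.mem_uIcc] at hi ⊢
      omega)) rfl
    rw [add_comm, zpow_one_add, Perm.mul_apply] at e ⊢
    rw [h2]
    exact hR _ _ e.symm
  | pred k ih =>
    intro y' hs e
    have h1 : (φ ^ (-k : ℤ)) y ∈ V := hs _ (Set.mem_uIcc.2 (Or.inr ⟨by omega, by omega⟩))
    have h2 := ih ⟨_, h1⟩ (fun i hi => hs i (by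
      rw [Set.mem_uIcc] at hi ⊢
      omega)) rfl
    rw [show (-k - 1 : ℤ) = -1 + -k by ring, zpow_add, zpow_neg_one, Perm.mul_apply,
      Perm.inv_eq_iff_eq] at e ⊢
    rw [h2]
    exact (hR y' ⟨_, h1⟩ e).symm

theorem glue_Cmp {V J : Type} [Finite V] [Finite J] (X : J → Type) (hX : ∀ j, Finite (X j))
    (e : ∀ j, V → X j) (he : ∀ j, Injective (e j)) (ψ : ∀ j, Perm (X j)) :
    ∃ (Y : Type) (_ : Finite Y) (_ : Y) (i : V → Y) (c : J → Perm Y), Injective i ∧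
      ∀ j (k : ℤ) v v', (c j ^ k) (i v) = i v' ↔ (ψ j ^ k) (e j v) = e j v' := by
  classical
  let f : ∀ j, X j → V ⊕ Option (Σ j, X j) := fun j =>
    extend (e j) Sum.inl fun x => Sum.inr (some ⟨j, x⟩)
  have f1 : ∀ j v, f j (e j v) = Sum.inl v := fun j v => (he j).extend_apply _ _ v
  have f2 : ∀ j x, (¬ ∃ v, e j v = x) → f j x = Sum.inr (some ⟨j, x⟩) := fun j x hx =>
    extend_apply' _ _ _ hx
  have hf : ∀ j, Injective (f j) := by
    intro j x y h
    by_cases hx : ∃ v, e j v = x <;> by_cases hy : ∃ v, e j v = y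
    · obtain ⟨v, rfl⟩ := hx
      obtain ⟨w, rfl⟩ := hy
      rw [f1, f1, Sum.inl.injEq] at h
      rw [h]
    · obtain ⟨v, rfl⟩ := hx
      rw [f1, f2 j y hy] at h
      cases h
    · obtain ⟨v, rfl⟩ := hy
      rw [f1, f2 j x hx] at h
      cases h
    · rw [f2 j x hx, f2 j y hy] at h
      simpa using h
  refine ⟨V ⊕ Option (Σ j, X j), inferInstance, Sum.inr none, Sum.inl,
    fun j => (ψ j).viaEmbedding ⟨f j, hf j⟩, Sum.inl_injective, fun j k v v' => ?_⟩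
  rw [← f1 j v, ← f1 j v', (semi_Cmp (f j) (ψ j) _ (fun _ => True) (fun _ => Iff.rfl)
    (fun a _ => (ψ j).viaEmbedding_apply ⟨f j, hf j⟩ a) k _ trivial).2, (hf j).eq_iff]

theorem per_Cmp {X : Type} {ψ : Perm X} {N : ℕ} (h : ψ ^ N = 1) {m k : ℤ} (e : m ≡ k [ZMOD N]) :
    ψ ^ m = ψ ^ k := by
  obtain ⟨t, ht⟩ := e.dvd
  rw [show k = m + N * t by linarith, zpow_add, zpow_mul, zpow_natCast, h, one_zpow, mul_one]

/-- the automaton that reads the product letter by letter -/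
def aut_Cmp {Z : Type} (h : ℕ) (c : ℕ → Perm Z) : Perm (Z × ZMod h) where
  toFun z := (c z.2.val z.1, z.2 + 1)
  invFun z := ((c (z.2 - 1).val)⁻¹ z.1, z.2 - 1)
  left_inv z := by simp
  right_inv z := by simp

theorem aut_pow_Cmp {Z : Type} (h : ℕ) (c : ℕ → Perm Z) (y : Z) (n : ℕ) (hn : n ≤ h) :
    (aut_Cmp h c ^ n) (y, 0) = (dn c n y, (n : ZMod h)) := by
  induction n with
  | zero => simp [dn]
  | succ n ih =>
    rw [pow_succ', Perm.mul_apply, ih (by omega)]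
    simp [aut_Cmp, dn, ZMod.val_natCast_of_lt (show n < h by omega)]

theorem aut_zpow_Cmp {Z : Type} (h : ℕ) (c : ℕ → Perm Z) (y : Z) (m : ℤ) :
    (aut_Cmp h c ^ (h * m : ℤ)) (y, 0) = ((dn c h ^ m) y, 0) := by
  rw [zpow_mul, zpow_natCast]
  exact (semi_Cmp (fun y => (y, (0 : ZMod h))) (dn c h) _ (fun _ => True) (fun _ => Iff.rfl)
    (fun a _ => by rw [aut_pow_Cmp h c a h le_rfl, ZMod.natCast_self]) m y trivial).2

theorem aut_snd_Cmp {Z : Type} (h : ℕ) (c : ℕ → Perm Z) (m : ℤ) (z : Z × ZMod h) :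
    ((aut_Cmp h c ^ m) z).2 = z.2 + m := by
  induction m using Int.induction_on with
  | zero => simp
  | succ k ih =>
    rw [add_comm (k : ℤ), zpow_one_add, Perm.mul_apply]
    refine (congrArg (· + 1) ih).trans ?_
    push_cast
    ring
  | pred k ih =>
    rw [show (-k - 1 : ℤ) = -1 + -k by ring, zpow_add, zpow_neg_one, Perm.mul_apply]
    refine (congrArg (· - 1) ih).trans ?_
    push_cast
    ring

theorem cmp_pf (hL : CL_st) (hS : Seg_st) : CMP_st := by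
  classical
  intro h hh Z c B hB
  have : NeZero h := ⟨by omega⟩
  have : Fact (1 < h) := ⟨hh⟩
  choose W hW hW' using fun j : Fin h => hS Z (c j) B hB
  obtain ⟨V, hV, hBV, hWV⟩ : ∃ V : Set Z, V.Finite ∧ B ⊆ V ∧ ∀ j, W j ⊆ V :=
    ⟨B ∪ ⋃ j, W j, hB.union (Set.finite_iUnion hW), Set.subset_union_left,
      fun j => (Set.subset_iUnion W j).trans Set.subset_union_right⟩
  obtain ⟨WA, hWA, hWA'⟩ := hS _ (aut_Cmp h c) (B ×ˢ {0}) (hB.prod (Set.finite_singleton _))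
  obtain ⟨VA, hVA, a1, a2, a3⟩ : ∃ VA : Set (Z × ZMod h), VA.Finite ∧
      (∀ y ∈ V, ∀ j, (y, j) ∈ VA) ∧ (∀ y ∈ V, ∀ j, aut_Cmp h c (y, j) ∈ VA) ∧ WA ⊆ VA :=
    ⟨V ×ˢ Set.univ ∪ aut_Cmp h c '' (V ×ˢ Set.univ) ∪ WA,
      ((hV.prod Set.finite_univ).union ((hV.prod Set.finite_univ).image _)).union hWA,
      fun y hy j => Or.inl (Or.inl ⟨hy, trivial⟩),
      fun y hy j => Or.inl (Or.inr ⟨(y, j), ⟨hy, trivial⟩, rfl⟩), Set.subset_union_right⟩
  have := hV.to_subtype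
  have := hVA.to_subtype
  obtain ⟨XA, _, ψ, eA, dg, N, b1, b2, b3, b4, b5, b6⟩ := hL VA
    (fun x y => (y : Z × ZMod h) = aut_Cmp h c x) h (fun x => x.1.2)
    (fun x y y' e e' => Subtype.ext (e.trans e'.symm))
    (fun x x' y e e' => Subtype.ext ((aut_Cmp h c).injective (e.symm.trans e')))
    (fun x y e => by rw [e]; rfl)
  let st : V × ZMod h → XA := fun p => eA ⟨(p.1, p.2), a1 _ p.1.2 _⟩
  have s1 : Injective st := fun p p' e => by
    have := Prod.ext_iff.1 (congrArg Subtype.val (b1 e))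
    exact Prod.ext (Subtype.ext this.1) this.2
  have s2 : ∀ p, dg (st p) = p.2 := fun p => b4 _
  let vtx : XA → V ⊕ XA := extend st (fun p => Sum.inl p.1) Sum.inr
  have v1 : ∀ p, vtx (st p) = Sum.inl p.1 := fun p => s1.extend_apply _ _ p
  have v2 : ∀ x, (¬ ∃ p, st p = x) → vtx x = Sum.inr x := fun x hx => extend_apply' _ _ _ hx
  have v3 : ∀ x x', vtx x = vtx x' → dg x = dg x' → x = x' := by
    intro x x' e e'
    by_cases hx : ∃ p, st p = x <;> by_cases hy : ∃ p, st p = x'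
    · obtain ⟨p, rfl⟩ := hx
      obtain ⟨p', rfl⟩ := hy
      rw [v1, v1, Sum.inl.injEq] at e
      rw [s2, s2] at e'
      rw [Prod.ext e e']
    · obtain ⟨p, rfl⟩ := hx
      rw [v1, v2 x' hy] at e
      cases e
    · obtain ⟨p, rfl⟩ := hy
      rw [v1, v2 x hx] at e
      cases e
    · rw [v2 x hx, v2 x' hy] at e
      exact Sum.inr_injective e
  choose X hX ψ' e' _ N' c1 c2 c3 _ _ c6 using fun j : ZMod h => hL (V ⊕ XA)
    (fun v v' => ∃ x, dg x = j ∧ v = vtx x ∧ v' = vtx (ψ x)) 1 (fun _ => 0)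
    (by
      rintro _ _ _ ⟨x, h1, rfl, rfl⟩ ⟨x', h2, h3, rfl⟩
      rw [v3 x x' h3 (h1.trans h2.symm)])
    (by
      rintro _ _ _ ⟨x, h1, rfl, rfl⟩ ⟨x', h2, rfl, h3⟩
      rw [ψ.injective (v3 _ _ h3 (by rw [b5, b5, h1, h2]))])
    (fun _ _ _ => Subsingleton.elim _ _)
  obtain ⟨Y, _, y0, i, c', d1, d2⟩ := glue_Cmp X hX e' c1 ψ'
  let e : Z → Y := fun z => if hz : z ∈ V then i (Sum.inl ⟨z, hz⟩) else y0
  have e1 : ∀ z (hz : z ∈ B), e z = i (Sum.inl ⟨z, hBV hz⟩) := fun z hz => dif_pos (hBV hz)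
  have g1 : ∀ x, c' (dg x) (i (vtx x)) = i (vtx (ψ x)) := fun x => by
    simpa using (d2 (dg x) 1 _ _).2 (by simpa using c2 _ _ _ ⟨x, rfl, rfl, rfl⟩)
  refine ⟨Y, inferInstance, fun n => c' n, e, fun y hy y' hy' k => ?_, fun j hj => ?_, ?_⟩
  · rw [e1 y hy, e1 y' hy'] at k
    exact congrArg Subtype.val (Sum.inl_injective (d1 k))
  · have hv : ((j : ℕ) : ZMod h).val = j := ZMod.val_natCast_of_lt hj
    have hR : ∀ x y : V, (y : Z) = c j x → ψ' j (e' j (Sum.inl x)) = e' j (Sum.inl y) :=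
      fun x y k => c2 _ _ _ ⟨st (x, j), s2 _, (v1 (x, j)).symm, by
        rw [show ψ (st (x, j)) = st (y, j + 1) from b2 _ _ (by simp [aut_Cmp, hv, k]), v1]⟩
    refine ⟨fun y hy y' hy' k hk => ?_, fun y hy hy' => ?_⟩
    · rw [e1 y hy, e1 y' hy', d2] at hk
      let ρ : XA → Z := extend st (fun p => p.1) fun _ => y
      have r1 : ∀ p, ρ (st p) = p.1 := fun p => s1.extend_apply _ _ p
      let g : XA → Z := fun x => if ∃ p, st p = x then ρ x else (c j)⁻¹ (ρ (ψ x))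
      let p : V ⊕ XA → Z := Sum.elim Subtype.val fun x =>
        if dg x = j then g x else c j (g (ψ⁻¹ x))
      obtain ⟨m, m1, m2⟩ := c6 j Z (c j) p (by
        rintro _ _ ⟨x, h1, rfl, rfl⟩
        have p1 : p (vtx x) = g x := by
          by_cases hx : ∃ p, st p = x
          · obtain ⟨q, rfl⟩ := hx
            rw [v1]
            exact ((if_pos ⟨q, rfl⟩).trans (r1 q)).symm
          · rw [v2 x hx]
            exact if_pos h1
        rw [p1]
        by_cases hx' : ∃ p, st p = ψ x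
        · obtain ⟨q', hq'⟩ := hx'
          rw [← hq', v1]
          by_cases hx : ∃ p, st p = x
          · obtain ⟨q, rfl⟩ := hx
            have h2 := b2 ⟨(q.1, q.2), a1 _ q.1.2 _⟩ ⟨_, a2 _ q.1.2 q.2⟩ rfl
            have h3 := congrArg (fun z : VA => z.1.1) (b1 (hq'.trans h2))
            rw [show g (st q) = q.1 from (if_pos ⟨q, rfl⟩).trans (r1 q)]
            rw [s2] at h1
            simpa [aut_Cmp, h1, hv, p] using h3
          · rw [show g x = (c j)⁻¹ (ρ (ψ x)) from if_neg hx, ← hq', r1]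
            simp [p]
        · rw [v2 _ hx']
          refine (if_neg ?_).trans (by simp)
          rw [b5, h1]
          simp) _ _ k hk
      refine ⟨m, m2, fun z hz z' hz' hm => ?_⟩
      rw [e1 z hz, e1 z' hz', d2, ← per_Cmp (c3 j) m1]
      exact chain_Cmp (c j) (ψ' j) (fun v : V => e' j (Sum.inl v)) hR ⟨z, hBV hz⟩ m ⟨z', hBV hz'⟩
        (fun t ht => hWV ⟨j, hj⟩ (hW' ⟨j, hj⟩ z hz m (hm ▸ hz') t ht)) hm
    · rw [e1 y hy, e1 _ hy']
      simpa using (d2 j 1 _ _).2 (by simpa using hR ⟨y, hBV hy⟩ ⟨_, hBV hy'⟩ rfl)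
  · have g2 : ∀ n : ℕ, ∀ x, dg x = 0 → dg ((ψ ^ n) x) = n ∧
        dn (fun n : ℕ => c' n) n (i (vtx x)) = i (vtx ((ψ ^ n) x)) := by
      intro n x hx
      induction n with
      | zero => exact ⟨by simpa using hx, rfl⟩
      | succ n ih =>
        rw [pow_succ', Perm.mul_apply, b5, ih.1, dn, Perm.mul_apply, ih.2, ← g1, ih.1]
        exact ⟨by simp, rfl⟩
    have g3 : ∀ n : ℕ, ∀ x, dg ((ψ ^ n) x) = dg x + n := by
      intro n x
      induction n with
      | zero => simp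
      | succ n ih =>
        rw [pow_succ', Perm.mul_apply, b5, ih]
        push_cast
        ring
    have g4 := semi_Cmp (fun x => i (vtx x)) (ψ ^ h) (dn (fun n : ℕ => c' n) h)
      (fun x => dg x = 0) (fun x => by rw [g3]; simp) fun x hx => (g2 h x hx).2
    have g5 : ∀ (k : ℤ) z (hz : z ∈ B) z' (hz' : z' ∈ B),
        (dn (fun n : ℕ => c' n) h ^ k) (e z) = e z' ↔
          (ψ ^ (h * k : ℤ)) (st (⟨z, hBV hz⟩, 0)) = st (⟨z', hBV hz'⟩, 0) := by
      intro k z hz z' hz'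
      have h1 := g4 k (st (⟨z, hBV hz⟩, 0)) (s2 _)
      rw [e1 z hz, e1 z' hz', ← v1 (⟨z, hBV hz⟩, 0), ← v1 (⟨z', hBV hz'⟩, 0), h1.2, zpow_mul,
        zpow_natCast]
      exact ⟨fun k => v3 _ _ (d1 k) (h1.1.trans (s2 (⟨z', hBV hz'⟩, 0)).symm), fun k => by rw [k]⟩
    intro y hy y' hy' k hk
    obtain ⟨m, m1, m2⟩ := b6 _ (aut_Cmp h c) Subtype.val (fun _ _ k => k) _ _ _
      ((g5 k y hy y' hy').1 hk)
    have m3 := aut_snd_Cmp h c m (y, 0)
    rw [show (aut_Cmp h c ^ m) (y, 0) = (y', 0) from m2] at m3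
    obtain ⟨m', rfl⟩ := (ZMod.intCast_zmod_eq_zero_iff_dvd m h).1 (by simpa using m3.symm)
    refine ⟨m', congrArg Prod.fst ((aut_zpow_Cmp h c y m').symm.trans m2), fun z hz z' hz' hm => ?_⟩
    have m4 : (aut_Cmp h c ^ (h * m' : ℤ)) (z, 0) = (z', 0) := by rw [aut_zpow_Cmp, hm]
    rw [g5 k z hz z' hz', ← per_Cmp b3 m1]
    exact chain_Cmp (aut_Cmp h c) ψ eA b2 ⟨(z, 0), a1 _ (hBV hz) _⟩ _ ⟨(z', 0), a1 _ (hBV hz') _⟩
      (fun t ht => a3 (hWA' (z, 0) ⟨hz, rfl⟩ _ (m4 ▸ ⟨hz', rfl⟩) t ht)) m4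

end Pool.Agent.MP_692752_al.PP

end

section

set_option autoImplicit false

namespace Pool.Agent.MP_692752_al.PP

open Equiv

section
variable {G Λ Γ : Type} [Group G] [Group Λ] [Group Γ] (d : PD G Λ) {D : Subgroup Γ} (θ : D →* G)

theorem pmul_Core {w w' : Λ} {β β' : MulAut G} (h : d.Psh w β) (h' : d.Psh w' β') :
    d.Psh (w * w') (β * β') :=
  ⟨fun z => by rw [MulAut.mul_apply, MulAut.mul_apply, h'.1, h.1],
   fun z => by rw [MulAut.mul_apply, h.2, h'.2]; group⟩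

theorem pinv_Core {w : Λ} {β : MulAut G} (h : d.Psh w β) : d.Psh w⁻¹ β⁻¹ := by
  refine ⟨fun z => β.injective ?_, fun z => ?_⟩
  · rw [h.1, MulAut.apply_inv_self, MulAut.apply_inv_self]
  · have := h.2 (β⁻¹ z)
    rw [MulAut.apply_inv_self] at this
    rw [this]; group

open Classical in
/-- the extension of `θ` to a function on the whole group -/
noncomputable def ex_Core (z : Γ) : G := if h : z ∈ D then θ ⟨z, h⟩ else 1

theorem ex_mem_Core {z : Γ} (h : z ∈ D) : ex_Core θ z = θ ⟨z, h⟩ := dif_pos h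

/-- `α` induces a push along `w` up to an inner automorphism -/
def Rel_Core (α : MulAut Γ) (w : Λ) : Prop :=
  α ∈ Stab D ∧ ∃ (u : G) (β : MulAut G), d.Psh w β ∧
    ∀ x ∈ D, ex_Core θ (α x) = u * β (ex_Core θ x) * u⁻¹

theorem rel_Core {α : MulAut Γ} {w : Λ} : Rel_Core d θ α w ↔ d.Pu D θ w α := by
  refine and_congr_right fun h1 => exists_congr fun u => exists_congr fun β =>
    and_congr_right fun _ => ⟨fun h x hx => ?_, fun h x hx => ?_⟩
  · rw [← ex_mem_Core, h x x.2, ex_mem_Core θ x.2]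
  · rw [ex_mem_Core θ hx, ex_mem_Core θ ((h1 x).2 hx)]
    exact h ⟨x, hx⟩ _

variable {d θ}

theorem mul_Core {α β : MulAut Γ} {w w' : Λ} (h : Rel_Core d θ α w) (h' : Rel_Core d θ β w') :
    Rel_Core d θ (α * β) (w * w') := by
  obtain ⟨hα, u, b, p, h⟩ := h
  obtain ⟨hβ, u', b', p', h'⟩ := h'
  refine ⟨mul_mem hα hβ, u * b u', b * b', pmul_Core d p p', fun x hx => ?_⟩
  rw [MulAut.mul_apply, h _ ((hβ x).2 hx), h' x hx]
  simp [mul_assoc]

theorem inv_Core {α : MulAut Γ} {w : Λ} (h : Rel_Core d θ α w) : Rel_Core d θ α⁻¹ w⁻¹ := by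
  obtain ⟨hα, u, b, p, h⟩ := h
  refine ⟨inv_mem hα, b⁻¹ u⁻¹, b⁻¹, pinv_Core d p, fun x hx => ?_⟩
  have e := h _ (((Stab D).inv_mem hα x).2 hx)
  rw [MulAut.apply_inv_self] at e
  rw [e]
  simp [mul_assoc]

theorem key_Core (hK : Key_st) (hθ : θ.range.FiniteIndex) (m : ℕ) :
    ∃ m', ∀ α w, Rel_Core d θ α w →
      (∀ x ∈ D, Eqv m' (ex_Core θ (α x)) (ex_Core θ x)) → w ∈ Lv Λ m := by
  obtain ⟨m', h1⟩ := hK G Λ d θ.range hθ m
  refine ⟨m', fun α w ⟨_, u, b, p, e⟩ h => h1 u b w p ?_⟩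
  rintro _ ⟨x, rfl⟩
  have := h x x.2
  rwa [e x x.2, ex_mem_Core θ x.2] at this

theorem uniq_Core (hK : Key_st) (hθ : θ.range.FiniteIndex) {α : MulAut Γ} {w w' : Λ}
    (h : Rel_Core d θ α w) (h' : Rel_Core d θ α w') : w = w' := by
  refine mul_inv_eq_one.1 (d.rf' _ fun m => ?_)
  obtain ⟨m', e⟩ := key_Core (d := d) hK hθ m
  refine e _ _ (mul_Core h (inv_Core h')) fun x _ => ?_
  rw [mul_inv_cancel]
  exact Eqv.refl _

theorem hom_Core {α : MulAut Γ} (h1 : α ∈ Stab D)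
    (h2 : ∀ x ∈ D, ex_Core θ x = 1 → ex_Core θ (α x) = 1) :
    ∃ f : θ.range →* θ.range, ∀ x : D,
      f (θ.rangeRestrict x) = θ.rangeRestrict ⟨α x, (h1 x).2 x.2⟩ := by
  let r : D →* D := (α.toMonoidHom.comp D.subtype).codRestrict D fun x => (h1 x).2 x.2
  refine ⟨θ.rangeRestrict.liftOfSurjective θ.rangeRestrict_surjective
    ⟨θ.rangeRestrict.comp r, fun x hx => Subtype.ext ?_⟩, fun x => ?_⟩
  · exact (ex_mem_Core θ (r x).2).symm.trans
      (h2 x x.2 ((ex_mem_Core θ x.2).trans (congrArg Subtype.val hx)))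
  · rw [MonoidHom.liftOfRightInverse_comp_apply]
    rfl

variable (d θ)

theorem lev_Core (hG : Group.FG G) (hD : D.FiniteIndex) (m : ℕ) :
    ∃ (Q' : Type) (_ : Group Q') (_ : Finite Q') (π' : Γ →* Q'), ∀ a b, π' a = π' b → b ∈ D →
      a ∈ D ∧ Eqv m (ex_Core θ a) (ex_Core θ b) := by
  have := Lv_fi hG m
  have : (((QuotientGroup.mk' (Lv G m)).comp θ).ker.map D.subtype).FiniteIndex := ⟨by
    rw [Subgroup.index_map_subtype]
    exact mul_ne_zero Subgroup.FiniteIndex.index_ne_zero hD.index_ne_zero⟩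
  refine ⟨_, _, inferInstance, QuotientGroup.mk'
    (((QuotientGroup.mk' (Lv G m)).comp θ).ker.map D.subtype).normalCore, fun a b e hb => ?_⟩
  obtain ⟨n, hn, e⟩ := Subgroup.normalCore_le _ (QuotientGroup.eq.1 e.symm)
  obtain rfl : a = b * n := by
    rw [show (n : Γ) = b⁻¹ * a from e, mul_inv_cancel_left]
  refine ⟨D.mul_mem hb n.2, ?_⟩
  rw [ex_mem_Core θ hb, ex_mem_Core θ (D.mul_mem hb n.2),
    show θ ⟨b * n, D.mul_mem hb n.2⟩ = θ ⟨b, hb⟩ * θ n from θ.map_mul ⟨b, hb⟩ n]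
  refine (eqv_iff.2 ?_).symm
  rw [inv_mul_cancel_left]
  exact (QuotientGroup.eq_one_iff _).1 hn

/-- the group of pushes -/
def T_Core : Subgroup (MulAut Γ) where
  carrier := {α | ∃ w, Rel_Core d θ α w}
  one_mem' := ⟨1, one_mem _, 1, 1, ⟨fun _ => rfl, fun z => by simp⟩, fun x _ => by simp⟩
  mul_mem' := fun ⟨_, h⟩ ⟨_, h'⟩ => ⟨_, mul_Core h h'⟩
  inv_mem' := fun ⟨_, h⟩ => ⟨_, inv_Core h⟩

end

theorem core_pf (hK : Key_st) (hC : Clo_st) : Core_st := by
  intro G Λ Γ _ _ _ d hfg D hD θ hθ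
  have L1 : ∀ m, ∃ B : Subgroup (MulAut Γ), B.FiniteIndex ∧
      ∀ β ∈ B, ∀ z ∈ D, Eqv m (ex_Core θ (β z)) (ex_Core θ z) := by
    intro m
    obtain ⟨Q', _, _, π', h⟩ := lev_Core θ d.fg hD m
    obtain ⟨B, h1, h2⟩ := (cong_ok Γ hfg Q' π').1
    exact ⟨B, h1, fun β hβ z hz => (h _ _ (h2 β hβ z) hz).2⟩
  have L2 : ∀ m, ∀ a ∈ cl (T_Core d θ), ∃ h ∈ T_Core d θ,
      ∀ z ∈ D, a z ∈ D ∧ Eqv m (ex_Core θ (a z)) (ex_Core θ (h z)) := by
    intro m a ha
    obtain ⟨Q', _, _, π', h⟩ := lev_Core θ d.fg hD m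
    obtain ⟨b, h1, h2⟩ := (cong_ok Γ hfg Q' π').2 _ a ha
    exact ⟨b, h1, fun z hz => h _ _ (h2 z) ((h1.choose_spec.1 z).2 hz)⟩
  have L3 : ∀ a ∈ cl (T_Core d θ), ∀ z ∈ D, a z ∈ D := fun a ha z hz =>
    ((L2 0 a ha).choose_spec.2 z hz).1
  have L4 : ∀ a ∈ cl (T_Core d θ), ∀ z ∈ D, ex_Core θ z = 1 → ex_Core θ (a z) = 1 := by
    refine fun a ha z hz e => d.rf _ fun m => eqv_one.1 ?_
    obtain ⟨b, ⟨w, -, u, β, -, h1⟩, h2⟩ := L2 m a ha
    refine (h2 z hz).2.trans (Eqv.of_eq ?_)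
    rw [h1 z hz, e]
    simp
  have L5 : ∀ a ∈ cl (T_Core d θ), a ∈ Stab D := fun a ha z =>
    ⟨fun h => by simpa using L3 _ (inv_mem ha) _ h, L3 a ha z⟩
  have L6 : ∀ a ∈ cl (T_Core d θ), ∃ γ : MulAut G,
      ∀ x ∈ D, ex_Core θ (a x) = γ (ex_Core θ x) := by
    intro a ha
    obtain ⟨f, hf⟩ := hom_Core (L5 a ha) (L4 a ha)
    obtain ⟨g, hg⟩ := hom_Core (L5 _ (inv_mem ha)) (L4 _ (inv_mem ha))
    have h1 : g.comp f = MonoidHom.id _ := MonoidHom.ext fun z => by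
      obtain ⟨x, rfl⟩ := θ.rangeRestrict_surjective z
      rw [MonoidHom.comp_apply, hf, hg]
      exact congrArg θ.rangeRestrict (Subtype.ext (MulAut.inv_apply_self _ a x))
    have h2 : f.comp g = MonoidHom.id _ := MonoidHom.ext fun z => by
      obtain ⟨x, rfl⟩ := θ.rangeRestrict_surjective z
      rw [MonoidHom.comp_apply, hg, hf]
      exact congrArg θ.rangeRestrict (Subtype.ext (MulAut.apply_inv_self _ a x))
    obtain ⟨β, hβ⟩ := ext_ok G d.fg d.rf d.cf d.gr θ.range hθ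
      (MonoidHom.toMulEquiv f g h1 h2) fun m => by
      obtain ⟨b, ⟨w, -, u, β, -, a1⟩, a2⟩ := L2 m a ha
      refine ⟨MulAut.conj u * β, fun v => ?_⟩
      obtain ⟨x, rfl⟩ := θ.rangeRestrict_surjective v
      have a3 := (a2 x x.2).2
      rw [a1 x x.2, ex_mem_Core θ x.2, ex_mem_Core θ (a2 x x.2).1] at a3
      exact (Eqv.of_eq (congrArg Subtype.val (hf x))).trans a3
    refine ⟨β, fun x hx => ?_⟩
    rw [ex_mem_Core θ hx, ex_mem_Core θ ((L5 a ha x).2 hx)]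
    exact (congrArg Subtype.val (hf ⟨x, hx⟩)).symm.trans (hβ _)
  refine ⟨T_Core d θ, MonoidHom.mk' (fun t => t.2.choose) fun a b => uniq_Core hK hθ
    (a * b).2.choose_spec (mul_Core a.2.choose_spec b.2.choose_spec),
    fun a ha => ?_, fun M hM => ?_, fun α w h => ⟨w, (rel_Core d θ).2 h⟩,
    fun t => (rel_Core d θ).1 t.2.choose_spec⟩
  · obtain ⟨γ, hγ⟩ := L6 a ha
    obtain ⟨u, β, w, p, e⟩ := hC G Λ d θ.range hθ γ fun m => by
      obtain ⟨b, ⟨w, -, u, β, p, a1⟩, a2⟩ := L2 m a ha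
      refine ⟨u, β, w, p, ?_⟩
      rintro _ ⟨x, rfl⟩
      have a3 := (a2 x x.2).2
      rwa [a1 x x.2, hγ x x.2, ex_mem_Core θ x.2] at a3
    exact ⟨w, L5 a ha, u, β, p, fun x hx => (hγ x hx).trans (e _)⟩
  · obtain ⟨m, h0⟩ := Lv_le M hM
    obtain ⟨m', h⟩ := key_Core (d := d) hK hθ m
    obtain ⟨B, h1, h2⟩ := L1 m'
    exact ⟨B, h1, fun t ht => h0 (h _ _ t.2.choose_spec (h2 _ ht))⟩

end Pool.Agent.MP_692752_al.PP

end

section

/-! The theorem about pushing a branch point from its parts. -/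

set_option autoImplicit false

namespace Pool.Agent.MP_692752_al.PP

theorem surf_Fin (n : ℕ) (hn : 2 ≤ n) : GrP (Surf n) ∧ RFL (Surf n) := by
  obtain ⟨k, rfl⟩ : ∃ k, n = k + 1 := ⟨n - 1, by omega⟩
  obtain ⟨d⟩ := surfHD_ok centD_ok k (by omega)
  obtain ⟨lz, hl⟩ := lift_VGrH _ d.lam
  refine ⟨grH_ok pik_all (e1_ok bg_all lin_ok) (e2p_ok fourP_ok bg_all cycF_ok)
    (e3_ok bg_all lin_ok) _ _ d lz fun h => d.hlam ?_,
    fun z hz => e1_ok bg_all lin_ok _ _ d z fun N => ⟨N, le_rfl, ?_⟩⟩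
  · rw [← hl, MonoidHom.comp_apply, MonoidHom.comp_apply, h]
  · exact rfl_free (rf_ok cp_ok) _ _ fun m => Lv_map _ (hz m)

theorem turn_Fin (h : ℕ) (i : Fin (h + h) ⊕ Fin (h + h)) :
    turn h (gen _ i) = gen _ (Sum.map finAddFlip finAddFlip i) := PresentedGroup.toGroup.of _

theorem fold_Fin (h : ℕ) (i : Fin (h + h) ⊕ Fin (h + h)) :
    fold h (gen _ i) = gen _ (Sum.map (Fin.addCases id id) (Fin.addCases id id) i) :=
  PresentedGroup.toGroup.of _

theorem flip_Fin (h : ℕ) (i : Fin (h + h)) : finAddFlip (finAddFlip i) = i := by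
  refine Fin.addCases (fun j => ?_) (fun j => ?_) i
  · rw [finAddFlip_apply_castAdd, finAddFlip_apply_natAdd]
  · rw [finAddFlip_apply_natAdd, finAddFlip_apply_castAdd]

theorem tt_Fin (h : ℕ) (z : Surf (h + h)) : turn h (turn h z) = z := by
  refine DFunLike.congr_fun (PresentedGroup.ext (φ := (turn h).comp (turn h))
    (ψ := MonoidHom.id _) fun i => ?_) z
  refine (congrArg (turn h) (turn_Fin h i)).trans ((turn_Fin h _).trans ?_)
  cases i <;> simp [flip_Fin, gen] <;> rfl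

theorem sur_Fin (h : ℕ) : Function.Surjective (fold h) := by
  intro z
  refine PresentedGroup.generated_by _ (fold h).range (fun i => ?_) z
  refine ⟨gen _ (Sum.map (Fin.castAdd h) (Fin.castAdd h) i), (fold_Fin h _).trans ?_⟩
  cases i <;> simp [gen]

theorem idx_Fin {Γ : Type} [Group Γ] (D : Subgroup Γ) (hD : D.FiniteIndex)
    (T : Subgroup (MulAut Γ)) (hT : ∀ x ∈ D, MulAut.conj x ∈ T) (H₀ : Subgroup (Out Γ))
    (h : ∀ φ ∈ H₀, ∃ α ∈ T, toOut Γ α = φ) : T.relIndex (H₀.comap (toOut Γ)) ≠ 0 := by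
  have hI : ∀ x : Γ, MulAut.conj x ∈ H₀.comap (toOut Γ) := fun x =>
    Subgroup.ker_le_comap _ _ (by rw [ker_Out]; exact ⟨x, rfl⟩)
  have : Finite (H₀.comap (toOut Γ) ⧸ T.subgroupOf (H₀.comap (toOut Γ))) := by
    refine Finite.of_surjective (fun q : Γ ⧸ D => QuotientGroup.mk ⟨_, hI q.out⟩) fun z => ?_
    obtain ⟨α, rfl⟩ := QuotientGroup.mk_surjective z
    obtain ⟨t, ht, e⟩ := h _ α.2
    obtain ⟨y, hy⟩ : (α : MulAut Γ) * t⁻¹ ∈ Inn Γ := by
      rw [← ker_Out, MonoidHom.mem_ker, map_mul, map_inv, e, mul_inv_cancel]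
    refine ⟨y, QuotientGroup.eq.2 (Subgroup.mem_subgroupOf.2 ?_)⟩
    have h1 := hT _ (QuotientGroup.eq.1 (QuotientGroup.out_eq' (s := D) y))
    have h2 := T.mul_mem h1 ht
    rw [map_mul, map_inv, hy] at h2
    simpa [mul_assoc] using h2
  exact Subgroup.index_ne_zero_of_finite

theorem fin_pf (hO : Outg_st) (hC : Core_st) (h1 : CFS_st) (h2 : COS_st) (h3 : TorS_st)
    (h4 : NrS_st) (hL : LER_st) (hA : APX_st) (g h : ℕ) (hg : 2 ≤ g) (hh : 2 ≤ h)
    (D : Subgroup (Surf g)) (hD : D.FiniteIndex) (θ : D →* Surf (h + h))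
    (hθ : θ.range.FiniteIndex) (H H₀ : Subgroup (Out (Surf g))) (hH : H.FG)
    (k0 : H₀.relIndex H ≠ 0)
    (k1 : ∀ φ ∈ H₀, ∃ α w, toOut (Surf g) α = φ ∧ Pushes D θ w α)
    (k2 : {φ | φ ∈ H ∧ ∃ α, toOut (Surf g) α = φ ∧ Pushes D θ 1 α}.Finite) : Separable H := by
  have a1 := surf_Fin (h + h) (by omega)
  have a2 := surf_Fin h hh
  let d : PD (Surf (h + h)) (Surf h) :=
    ⟨turn h, fold h, rh h, tt_Fin h, sur_Fin h, surf_fg _, a1.2, h1 _ (by omega), a1.1, a2.2,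
      h1 h hh, a2.1, h2 h (by omega), h3 h (by omega), h4 h (by omega)⟩
  have e : ∀ w α, d.Pu D θ w α ↔ Pushes D θ w α := fun w α =>
    and_congr_right fun _ => exists₂_congr fun _ _ => and_assoc
  obtain ⟨T, P, b1, b2, b3, b4⟩ := hC _ _ _ d (surf_fg g) D hD θ hθ
  obtain ⟨S, c1, c2⟩ := hA h hh
  refine hO _ _ (hL _ S c1 c2) (surf_fg g) (gr_all g hg) T P b1 b2 H hH ?_ (k2.subset ?_)
  · refine Subgroup.relIndex_ne_zero_trans (idx_Fin D hD T (fun x hx => b3 _ 1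
      ⟨fun y => ?_, θ ⟨x, hx⟩, 1, ⟨fun _ => rfl, fun z => by simp⟩, fun y hy => ?_⟩) H₀
      fun φ hφ => ?_) ?_
    · rw [MulAut.conj_apply, D.mul_mem_cancel_right (D.inv_mem hx), D.mul_mem_cancel_left hx]
    · rw [MulAut.one_apply, ← map_inv, ← map_mul, ← map_mul]
      rfl
    · obtain ⟨α, w, f1, f2⟩ := k1 φ hφ
      exact ⟨α, b3 α w ((e w α).2 f2), f1⟩
    · rwa [Subgroup.relIndex_comap, Subgroup.map_comap_eq_self_of_surjective (surj_Out _)]
  · rintro φ ⟨hφ, t, ht, hP⟩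
    exact ⟨hφ, t, ht, (e 1 t).1 (hP ▸ b4 t)⟩

end Pool.Agent.MP_692752_al.PP

end

section

set_option autoImplicit false

namespace Pool.Agent.MP_692752_al.PP

open Equiv

theorem add_Inv {Z : Type} (φ : Perm Z) (i k : ℤ) (y : Z) :
    (φ ^ (i + k)) y = (φ ^ i) ((φ ^ k) y) := by rw [zpow_add, Perm.mul_apply]

theorem sub_Inv {Z : Type} (φ : Perm Z) (i k : ℤ) (y y' : Z) :
    (φ ^ (-i + k)) y = y' ↔ (φ ^ k) y = (φ ^ i) y' := by
  rw [add_Inv, zpow_neg, Perm.inv_eq_iff_eq]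

theorem fin_Inv {Z : Type} (φ : Perm Z) (y y' : Z) :
    {x | ∃ k : ℤ, (φ ^ k) y = y' ∧ ∃ i ∈ Set.uIcc 0 k, (φ ^ i) y = x}.Finite := by
  by_cases h : ∃ p : ℤ, p ≠ 0 ∧ (φ ^ p) y = y
  · obtain ⟨p, hp, e⟩ := h
    refine ((Set.finite_Ico 0 |p|).image fun i => (φ ^ i) y).subset ?_
    rintro x ⟨k, -, i, -, hx⟩
    refine ⟨i % p, ⟨Int.emod_nonneg i hp, Int.emod_lt_abs i hp⟩, ?_⟩
    have h1 := add_Inv φ (i % p) (p * (i / p)) y
    rw [Int.emod_add_mul_ediv, zpow_mul, Perm.zpow_apply_eq_self_of_apply_eq_self e] at h1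
    exact h1.symm.trans hx
  · by_cases h' : ∃ k : ℤ, (φ ^ k) y = y'
    · obtain ⟨k, hk⟩ := h'
      refine ((Set.finite_uIcc 0 k).image fun i => (φ ^ i) y).subset ?_
      rintro x ⟨k', e, i, hi, hx⟩
      have h1 : k' = k := by
        by_contra hne
        exact h ⟨-k + k', by omega, (sub_Inv φ k k' y y).2 (e.trans hk.symm)⟩
      exact ⟨i, h1 ▸ hi, hx⟩
    · exact Set.finite_empty.subset fun _ ⟨k, e, _⟩ => h' ⟨k, e⟩

theorem seg_pf : Seg_st := fun _ φ _ hB =>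
  ⟨_, hB.biUnion fun y _ => hB.biUnion fun y' _ => fin_Inv φ y y', fun _ hy k hk i hi =>
    Set.mem_biUnion hy (Set.mem_biUnion hk ⟨k, rfl, i, hi, rfl⟩)⟩

theorem inv_pf : INV_st := by
  intro Z X φ s ψ e B hT hs hc
  have ss : ∀ y, s (s y) = y := fun y => by rw [← Perm.mul_apply, hs, Perm.one_apply]
  have key : ∀ x : X, ∃ x' : X,
      (∀ (k : ℤ) (y : Z), y ∈ B → s y ∈ B → (ψ ^ k) (e y) = x → x' = (ψ ^ k) (e (s y))) ∧
      ((¬∃ (k : ℤ) (y : Z), y ∈ B ∧ s y ∈ B ∧ (ψ ^ k) (e y) = x) → x' = x) := fun x => by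
    by_cases h : ∃ (k : ℤ) (y : Z), y ∈ B ∧ s y ∈ B ∧ (ψ ^ k) (e y) = x
    · obtain ⟨k, y, h1, h2, h3⟩ := id h
      refine ⟨(ψ ^ k) (e (s y)), fun k' y' a1 a2 a3 => ?_, fun h' => absurd h h'⟩
      obtain ⟨m, b1, b2⟩ := hT y h1 y' a1 (-k' + k) ((sub_Inv ψ _ _ _ _).2 (h3.trans a3.symm))
      refine (sub_Inv ψ _ _ _ _).1 (b2 _ h2 _ a2 ?_)
      rw [← b1, ← Perm.mul_apply, ← Perm.mul_apply, ((show Commute s φ from hc).zpow_right m).eq]
    · exact ⟨x, fun k y a1 a2 a3 => absurd ⟨k, y, a1, a2, a3⟩ h, fun _ => rfl⟩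
  choose f f1 f2 using key
  have hf : Function.Involutive f := fun x => by
    by_cases h : ∃ (k : ℤ) (y : Z), y ∈ B ∧ s y ∈ B ∧ (ψ ^ k) (e y) = x
    · obtain ⟨k, y, h1, h2, rfl⟩ := h
      rw [f1 _ k y h1 h2 rfl, f1 _ k (s y) h2 (by rwa [ss]) rfl, ss]
    · rw [f2 x h, f2 x h]
  refine ⟨hf.toPerm f, Equiv.ext hf, Equiv.ext fun x => ?_, fun y h1 h2 => f1 _ 0 y h1 h2 rfl⟩
  change f (ψ x) = ψ (f x)
  by_cases h : ∃ (k : ℤ) (y : Z), y ∈ B ∧ s y ∈ B ∧ (ψ ^ k) (e y) = x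
  · obtain ⟨k, y, h1, h2, rfl⟩ := h
    rw [f1 _ k y h1 h2 rfl, f1 _ (1 + k) y h1 h2 (by rw [add_Inv, zpow_one]), add_Inv, zpow_one]
  · rw [f2 x h, f2 _ fun ⟨k, y, h1, h2, h3⟩ => h ⟨-1 + k, y, h1, h2,
      (sub_Inv ψ 1 k _ _).2 (by rwa [zpow_one])⟩]

end Pool.Agent.MP_692752_al.PP

end

section

set_option autoImplicit false

namespace Pool.Agent.MP_692752_al.PP

open Equiv

theorem key_pf : Key_st := by
  intro G Λ _ _ d U hU m
  obtain ⟨a, ha⟩ := d.cf' ⊤ inferInstance m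
  obtain ⟨b, hb⟩ := d.co m
  obtain ⟨c, hc⟩ := d.cf ⊤ inferInstance b
  obtain ⟨m', hm⟩ := ug_of d.cf U hU (max a c)
  refine ⟨m', fun u β w hP hx => ?_⟩
  have h0 : ∀ z, Eqv (max a c) (u * β z * u⁻¹) z :=
    hm (MulAut.conj u * β : MulAut G).toMonoidHom hx
  have h1 : d.q u ∈ Lv Λ m := by
    refine hb u (eqv_iff.2 (hc _ fun y _ => ?_)).symm
    have e : d.ι (β (β.symm (d.ι y))) = y := by rw [MulEquiv.apply_symm_apply, d.ιι]
    have k1 := (h0 (d.ι (β.symm (d.ι y)))).anti (le_max_right a c)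
    have k2 := ((h0 (β.symm (d.ι y))).anti (le_max_right a c)).map d.ι
    rw [hP.1, e] at k1
    rw [map_mul, map_mul, map_inv, e] at k2
    have k3 := ((Eqv.refl u⁻¹).mul (k2.trans k1.symm)).mul (Eqv.refl (d.ι u))
    exact ((Eqv.of_eq (by group)).trans k3).trans (Eqv.of_eq (by group))
  have h2 : d.q u * w ∈ Lv Λ m := by
    refine ha _ fun y _ => ?_
    obtain ⟨z, rfl⟩ := d.qs y
    have k1 := ((h0 z).anti (le_max_left a c)).map d.q
    rw [map_mul, map_mul, map_inv, hP.2] at k1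
    exact (Eqv.of_eq (by group)).trans (k1.mul (Eqv.refl (d.q u * w)))
  simpa using (Lv Λ m).mul_mem ((Lv Λ m).inv_mem h1) h2

end Pool.Agent.MP_692752_al.PP

end

section

set_option autoImplicit false

namespace Pool.Agent.MP_692752_al.PP

open Equiv

theorem ex_NrS (k : ℕ) : ∃ p : Fin (k + 1) ⊕ Fin (k + 1) → Perm (Fin 4),
    FreeGroup.lift p (surfRel (k + 1)) = swap 0 1 * swap 2 3 := by
  refine ⟨Sum.elim (fun i => if i = 0 then swap 0 1 else 1)
    (fun i => if i = 0 then swap 0 2 * swap 1 3 else 1), ?_⟩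
  rw [lift_surfRel, List.ofFn_succ, List.prod_cons, List.prod_eq_one (by
    intro x hx
    obtain ⟨i, rfl⟩ := List.mem_ofFn.1 hx
    simp [Fin.succ_ne_zero])]
  simp only [Sum.elim_inl, Sum.elim_inr, if_true]
  decide

theorem nrs_pf : NrS_st := by
  intro h hh
  obtain ⟨k, rfl⟩ : ∃ k, h = k + 1 := ⟨h - 1, by omega⟩
  obtain ⟨p, hp⟩ := ex_NrS k
  have e : (fun i => p (Sum.map (fun x => x) (fun x => x) i)) = p := by
    funext i
    cases i <;> rfl
  have rel : ∀ r ∈ ({surfRel (k + 1 + (k + 1))} :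
      Set (FreeGroup (Fin (k + 1 + (k + 1)) ⊕ Fin (k + 1 + (k + 1))))),
      FreeGroup.lift (fun i => p (Sum.map (Fin.addCases id id) (Fin.addCases id id) i)) r = 1 := by
    rintro r rfl
    rw [lift_add]
    simp only [Sum.map_map, Function.comp_def, Fin.addCases_left, Fin.addCases_right, id, e, hp]
    decide
  obtain ⟨f, hf⟩ : ∃ f : Surf (k + 1 + (k + 1)) →* Perm (Fin 4), ∀ i, f (gen _ i) =
      p (Sum.map (Fin.addCases id id) (Fin.addCases id id) i) :=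
    ⟨PresentedGroup.toGroup rel, fun i => PresentedGroup.toGroup.of rel⟩
  have ht : f.comp (turn (k + 1)) = f := PresentedGroup.ext fun i => by
    have e₁ : turn (k + 1) (gen _ i) = gen _ (Sum.map finAddFlip finAddFlip i) :=
      PresentedGroup.toGroup.of (turn_rel (k + 1))
    have e₂ : ∀ j : Fin (k + 1 + (k + 1)), (Fin.addCases id id (finAddFlip j) : Fin (k + 1)) =
        Fin.addCases id id j := fun j => by
      induction j using Fin.addCases <;> simp only [finAddFlip_apply_castAdd,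
        finAddFlip_apply_natAdd, Fin.addCases_left, Fin.addCases_right]
    change f (turn (k + 1) (gen _ i)) = f (gen _ i)
    rw [e₁, hf, hf]
    cases i <;> simp [e₂]
  have hr : f (rh (k + 1)) = swap 0 1 * swap 2 3 := by
    rw [rh, lift_surfRel, map_list_prod, List.map_ofFn, ← hp, lift_surfRel]
    simp [Function.comp_def, hf]
  refine ⟨4, fun y hy => ?_⟩
  have h1 := hy f
  rw [hr, map_mul, map_inv, show f (turn (k + 1) y) = f y from DFunLike.congr_fun ht y,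
    mul_inv_cancel] at h1
  exact absurd h1 (by decide)

end Pool.Agent.MP_692752_al.PP

end

section

/-! The abstract transfer for a target whose finitely generated subgroups are separable. -/

set_option autoImplicit false

namespace Pool.Agent.MP_692752_al.PP

open Equiv

theorem img_Outg {A Λ : Type} [Group A] [Group Λ] {X : Subgroup A} (hL : Lerf Λ)
    {T : Subgroup A} {P : T →* Λ} (hC : Ctg T P) (hle : X ≤ T)
    (hX : X.FG) {t : T} (ha : (t : A) ∈ cl X) : ∃ h : T, (h : A) ∈ X ∧ P h = P t := by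
  have := (Group.fg_iff_subgroup_fg X).2 hX
  obtain ⟨x, hx⟩ := hL (P.comp (Subgroup.inclusion hle)).range
    ((Group.fg_iff_subgroup_fg _).1 inferInstance) (x := P t) fun K h1 h2 => by
      obtain ⟨B, h3, h4⟩ := hC K h1
      obtain ⟨h, hh, e⟩ := dec_AT ha B
      have k := K.mul_mem (h2 ⟨⟨h, hh⟩, rfl⟩) (h4 ((⟨h, hle hh⟩ : T)⁻¹ * t) e)
      rwa [_root_.map_mul, _root_.map_inv, MonoidHom.comp_apply,
        show Subgroup.inclusion hle ⟨h, hh⟩ = ⟨h, hle hh⟩ from rfl, mul_inv_cancel_left] at k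
  exact ⟨Subgroup.inclusion hle x, x.2, hx⟩

theorem at_Outg {A Λ : Type} [Group A] [Group Λ] (hL : Lerf Λ) (I T H : Subgroup A)
    (P : T →* Λ) (hI : I.Normal) (cI : cl I ≤ I) (cT : cl T ≤ T) (hC : Ctg T P) (IH : I ≤ H)
    (fH : H.FG) (hT : T.relIndex H ≠ 0)
    (hfin : ∃ S : Set A, S.Finite ∧ S ⊆ H ∧
      ∀ t : T, (t : A) ∈ H → P t = 1 → ∃ s ∈ S, s⁻¹ * t ∈ I) : cl H ≤ H := by
  obtain ⟨S, hS, SH, hP⟩ := hfin
  intro a ha
  have r0 : (T ⊓ H).relIndex H ≠ 0 := by rwa [Subgroup.inf_relIndex_right]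
  have f0 := fg_AT inf_le_right r0 fH
  have mT : ∀ {X : Subgroup A} {b}, X ≤ T → b ∈ cl X → b ∈ T := fun h hb => cT (mono_AT h hb)
  obtain ⟨h₀, m₀, c₀⟩ := coset_AT r0 ha
  obtain ⟨h₁, m₁, e₁⟩ := img_Outg hL hC inf_le_left f0 (t := ⟨_, mT inf_le_left c₀⟩) c₀
  obtain ⟨b, hb⟩ : ∃ b : T, b = h₁⁻¹ * ⟨_, mT inf_le_left c₀⟩ := ⟨_, rfl⟩
  have cb : (b : A) ∈ cl (T ⊓ H) := hb ▸ mul_mem (inv_mem (le_cl_AT _ m₁)) c₀
  have pb : P b = 1 := by rw [hb, _root_.map_mul, _root_.map_inv, e₁, inv_mul_cancel]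
  suffices k : (b : A) ∈ H by
    have := H.mul_mem m₀ (H.mul_mem m₁.2 k)
    simpa [hb] using this
  by_contra nb
  have := hS.to_subtype
  obtain ⟨L, l1, l2, l3⟩ := avoid_AT (X := I) (fun s : S => (s : A)⁻¹ * b) fun s e =>
    nb (by simpa using H.mul_mem (SH s.2) (IH (cI e)))
  have IB : I ≤ L.normalCore := Subgroup.normal_le_normalCore.2 l2
  have r1 : (L.normalCore ⊓ (T ⊓ H)).relIndex (T ⊓ H) ≠ 0 := by
    rw [Subgroup.inf_relIndex_right]
    exact Subgroup.FiniteIndex.index_ne_zero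
  obtain ⟨h₂, m₂, c₂⟩ := coset_AT r1 cb
  obtain ⟨h₃, m₃, e₃⟩ := img_Outg hL hC (inf_le_right.trans inf_le_left)
    (fg_AT inf_le_right r1 f0) (t := (⟨h₂, m₂.1⟩ : T)⁻¹ * b) c₂
  obtain ⟨s, hs, e⟩ := hP (⟨h₂, m₂.1⟩ * h₃) (H.mul_mem m₂.2 m₃.2.2) (by
    rw [_root_.map_mul, e₃, ← _root_.map_mul, mul_inv_cancel_left, pb])
  refine l3 ⟨s, hs⟩ (L.normalCore_le ?_)
  have := mul_mem (mul_mem (IB e) (inv_mem m₃.1)) (c₂ _ inferInstance inf_le_left)
  simpa [mul_assoc] using this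

theorem outg_pf : Outg_st := by
  intro G Λ _ _ hL hG hGr T P hT hP H hH hi hf
  obtain ⟨σ, hσ⟩ := (surj_Out G).hasRightInverse
  have hI : cl (Inn G) ≤ Inn G := by
    intro a ha
    obtain ⟨γ, hγ⟩ := hGr a fun Q _ _ π => by
      obtain ⟨_, ⟨γ, rfl⟩, h⟩ := (cong_ok G hG Q π).2 _ a ha
      exact ⟨γ, h⟩
    exact ⟨γ, MulEquiv.ext fun z => (hγ z).symm⟩
  have hIH : Inn G ≤ H.comap (toOut G) := ker_Out G ▸ Subgroup.ker_le_comap _ _
  have hfg : (H.comap (toOut G)).FG := by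
    obtain ⟨S, hS, hS'⟩ := (Subgroup.fg_iff H).1 hH
    have e : H = (Subgroup.closure (σ '' S)).map (toOut G) := by
      rw [MonoidHom.map_closure, Set.image_image]
      simp only [hσ _, Set.image_id', hS]
    rw [e, Subgroup.comap_map_eq, ker_Out]
    exact ((Subgroup.fg_iff _).2 ⟨_, rfl, hS'.image σ⟩).sup
      ((Group.fg_iff_subgroup_fg _).1 (Group.fg_range _))
  have key := at_Outg hL (Inn G) T (H.comap (toOut G)) P inferInstance hI hT hP hIH hfg hi
    ⟨_, hf.image σ, by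
      rintro _ ⟨φ, h, rfl⟩
      rw [SetLike.mem_coe, Subgroup.mem_comap, hσ]
      exact h.1, fun t ht h1 => ⟨_, ⟨toOut G t, ⟨ht, t, rfl, h1⟩, rfl⟩, by
      rw [← ker_Out, MonoidHom.mem_ker, _root_.map_mul, _root_.map_inv, hσ, inv_mul_cancel]⟩⟩
  intro φ hφ
  by_contra hn
  refine hφ (hσ φ ▸ (key (fun K hK hHK => ?_) : σ φ ∈ H.comap (toOut G)))
  by_contra hK'
  have hk : (toOut G).ker ≤ K := ker_Out G ▸ hIH.trans hHK
  refine hn ⟨K.map (toOut G), ⟨?_⟩, ?_, fun h => hK' ?_⟩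
  · rw [Subgroup.index_map_eq _ (surj_Out G) hk]
    exact hK.index_ne_zero
  · rw [← Subgroup.map_comap_eq_self_of_surjective (surj_Out G) H]
    exact Subgroup.map_mono hHK
  · rw [← Subgroup.comap_map_eq_self hk, Subgroup.mem_comap, hσ]
    exact h

end Pool.Agent.MP_692752_al.PP

end

section

set_option autoImplicit false

namespace Pool.Agent.MP_692752_al.PP

open Equiv

section abs
variable {F G : Type} [Group F] [Group G]

/-- the product of a list of letters -/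
def P_Tor (e : Bool → F →* G) (L : List (Bool × F)) : G := (L.map fun l => e l.1 l.2).prod

/-- reduced lists of letters -/
def Red_Tor (r : F) (L : List (Bool × F)) : Prop :=
  (∀ l ∈ L, l.2 ∉ Subgroup.zpowers r) ∧ L.IsChain fun l l' => l.1 ≠ l'.1

theorem P_cons_Tor (e : Bool → F →* G) (a : Bool × F) (L : List (Bool × F)) :
    P_Tor e (a :: L) = e a.1 a.2 * P_Tor e L := by simp [P_Tor]

theorem P_app_Tor (e : Bool → F →* G) (L L' : List (Bool × F)) :
    P_Tor e (L ++ L') = P_Tor e L * P_Tor e L' := by simp [P_Tor]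

theorem sw_Tor {e : Bool → F →* G} {r : F} (hr : e true r = (e false r)⁻¹) {x : F}
    (hx : x ∈ Subgroup.zpowers r) {a b : Bool} (hab : a ≠ b) : e a x = e b x⁻¹ := by
  obtain ⟨k, rfl⟩ := hx
  cases a <;> cases b <;> simp_all

theorem short_Tor {e : Bool → F →* G} {r : F} (hr : e true r = (e false r)⁻¹)
    (L : List (Bool × F)) : Red_Tor r L ∨ (∃ L', L'.length < L.length ∧ P_Tor e L' = P_Tor e L) ∨
      ∃ a : Bool × F, a.2 ∈ Subgroup.zpowers r ∧ L = [a] := by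
  induction L with
  | nil => exact Or.inl ⟨by simp, by simp⟩
  | cons a L ih =>
    rcases ih with h | ⟨L', h1, h2⟩ | ⟨b, hb, rfl⟩
    · cases L with
      | nil =>
        by_cases ha : a.2 ∈ Subgroup.zpowers r
        · exact Or.inr (Or.inr ⟨a, ha, rfl⟩)
        · exact Or.inl ⟨by simpa using ha, by simp⟩
      | cons b L =>
        by_cases hab : a.1 = b.1
        · exact Or.inr (Or.inl ⟨(b.1, a.2 * b.2) :: L, by simp, by
            simp [P_cons_Tor, hab, mul_assoc]⟩)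
        by_cases ha : a.2 ∈ Subgroup.zpowers r
        · exact Or.inr (Or.inl ⟨(b.1, a.2⁻¹ * b.2) :: L, by simp, by
            simp only [P_cons_Tor, sw_Tor hr ha hab, map_mul, mul_assoc]⟩)
        · exact Or.inl ⟨List.forall_mem_cons.2 ⟨ha, h.1⟩, List.isChain_cons_cons.2 ⟨hab, h.2⟩⟩
    · exact Or.inr (Or.inl ⟨a :: L', by simpa using h1, by rw [P_cons_Tor, P_cons_Tor, h2]⟩)
    · by_cases hab : b.1 = a.1
      · exact Or.inr (Or.inl ⟨[(a.1, a.2 * b.2)], by simp, by simp [P_Tor, hab]⟩)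
      · exact Or.inr (Or.inl ⟨[(a.1, a.2 * b.2⁻¹)], by simp, by
          simp only [P_cons_Tor, sw_Tor hr hb hab, map_mul, mul_assoc]⟩)

theorem pow_Tor {τ : G →* G} {ρ : G} (h : τ ρ = ρ⁻¹) (k : ℤ) :
    ∃ u, ρ ^ k = u * (τ u)⁻¹ ∨ ρ ^ k = u * ρ * (τ u)⁻¹ := by
  obtain ⟨m, rfl | rfl⟩ := Int.even_or_odd' k
  · exact ⟨ρ ^ m, Or.inl (by rw [map_zpow, h]; group)⟩
  · exact ⟨ρ ^ m, Or.inr (by rw [map_zpow, h]; group)⟩

theorem main_Tor {e : Bool → F →* G} {r : F} {τ : G →* G} (hr : e true r = (e false r)⁻¹)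
    (hτ : ∀ b x, τ (e b x) = e (!b) x) (nf : ∀ L, Red_Tor r L → P_Tor e L = 1 → L = [])
    (n : ℕ) : ∀ L : List (Bool × F), L.length < n → P_Tor e L * τ (P_Tor e L) = 1 →
      ∃ u, P_Tor e L = u * (τ u)⁻¹ ∨ P_Tor e L = u * e false r * (τ u)⁻¹ := by
  induction n with
  | zero => exact fun L h => absurd h (Nat.not_lt_zero _)
  | succ n ih =>
    intro L hL hv
    rcases short_Tor hr L with h | ⟨L', h1, h2⟩ | ⟨⟨b, x⟩, ⟨k, rfl⟩, rfl⟩
    · have ht : ∀ M : List (Bool × F), P_Tor e (M.map fun l => (!l.1, l.2)) = τ (P_Tor e M) := by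
        intro M
        simp [P_Tor, map_list_prod, Function.comp_def, hτ]
      have key : (∀ x ∈ L.getLast?, ∀ y ∈ L.head?, x.1 ≠ !y.1) → L = [] := by
        intro hc
        have := nf (L ++ L.map fun l => (!l.1, l.2)) ⟨?_, ?_⟩ (by rw [P_app_Tor, ht, hv])
        · exact (List.append_eq_nil_iff.1 this).1
        · intro l hl
          rcases List.mem_append.1 hl with hl | hl
          · exact h.1 l hl
          · obtain ⟨l', hl', rfl⟩ := List.mem_map.1 hl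
            exact h.1 l' hl'
        · refine h.2.append ((List.isChain_map _).2 (h.2.imp fun a b hab => by simpa using hab)) ?_
          intro x hx y hy
          rw [List.head?_map] at hy
          obtain ⟨y', hy', rfl⟩ := Option.mem_map.1 hy
          exact hc x hx y' hy'
      cases L with
      | nil => exact ⟨1, Or.inl (by simp [P_Tor])⟩
      | cons a M =>
        rcases List.eq_nil_or_concat' M with rfl | ⟨M, z, rfl⟩
        · exact absurd (key (by simp)) (by simp)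
        by_cases hz : z.1 = !a.1
        · have e1 : P_Tor e (M ++ [(z.1, z.2 * a.2)]) =
              (e a.1 a.2)⁻¹ * P_Tor e (a :: (M ++ [z])) * τ (e a.1 a.2) := by
            simp [P_Tor, hτ, hz, mul_assoc]
          have e2 : τ (τ (e a.1 a.2)) = e a.1 a.2 := by rw [hτ, hτ, Bool.not_not]
          obtain ⟨u, hu⟩ := ih (M ++ [(z.1, z.2 * a.2)]) (by simp at hL ⊢; omega) (by
            rw [e1, map_mul, map_mul, map_inv, e2]
            calc _ = (e a.1 a.2)⁻¹ * (P_Tor e (a :: (M ++ [z])) * τ (P_Tor e (a :: (M ++ [z])))) *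
                  e a.1 a.2 := by group
              _ = 1 := by rw [hv]; group)
          rw [e1] at hu
          refine ⟨e a.1 a.2 * u, hu.imp (fun h => ?_) fun h => ?_⟩
          · rw [map_mul, mul_inv_rev, ← mul_assoc, mul_assoc _ u, ← h]
            group
          · rw [map_mul, mul_inv_rev, ← mul_assoc, mul_assoc _ u, mul_assoc (e a.1 a.2), ← h]
            group
        · refine absurd (key ?_) (by simp)
          rw [← List.cons_append, List.getLast?_concat]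
          simpa using hz
    · rw [← h2] at hv ⊢
      exact ih L' (by omega) hv
    · have h1 : τ (e false r) = (e false r)⁻¹ := by rw [hτ]; exact hr
      cases b
      · simpa [P_Tor] using pow_Tor h1 k
      · simpa [P_Tor, hr] using pow_Tor h1 (-k)

/-- the amalgamating maps -/
def ph_Tor (r : F) (b : Bool) : Multiplicative ℤ →* F := zpowersHom F (if b then r⁻¹ else r)

theorem nf_Tor [IsMulTorsionFree F] {r : F} (hr : r ≠ 1) (L : List (Bool × F)) (h : Red_Tor r L)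
    (h1 : P_Tor (fun b => Monoid.PushoutI.of (G := fun _ => F) (φ := ph_Tor r) b) L = 1) :
    L = [] := by
  have inj : ∀ b, Function.Injective (ph_Tor r b) := by
    intro b x y hxy
    have h2 : (if b then r⁻¹ else r) ≠ 1 := by split_ifs <;> simpa using hr
    exact Multiplicative.toAdd.injective (injective_zpow_iff_not_isOfFinOrder.2
      (fun hf => h2 ((isOfFinOrder_iff_eq_one _).1 hf)) hxy)
  let w : Monoid.CoprodI.Word fun _ : Bool => F :=
    ⟨L.map fun l => ⟨l.1, l.2⟩, fun l hl => by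
      obtain ⟨l', hl', rfl⟩ := List.mem_map.1 hl
      exact fun e => h.1 l' hl' (by rw [show l'.2 = 1 from e]; exact one_mem _),
      (List.isChain_map _).2 h.2⟩
  have hw : Monoid.PushoutI.Reduced (ph_Tor r) w := by
    intro l hl
    obtain ⟨l', hl', rfl⟩ := List.mem_map.1 hl
    have := h.1 l' hl'
    unfold ph_Tor
    rw [Subgroup.range_zpowersHom]
    split_ifs <;> simpa using this
  have h3 := hw.eq_empty_of_mem_range inj ⟨1, by
    rw [map_one, ← h1]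
    simp [w, P_Tor, Monoid.CoprodI.Word.prod, map_list_prod, Function.comp_def]⟩
  simpa [w, Monoid.CoprodI.Word.empty] using congrArg Monoid.CoprodI.Word.toList h3

end abs

/-- the two halves -/
def e_Tor (h : ℕ) (b : Bool) : FreeGroup (Fin h ⊕ Fin h) →* Surf (h + h) :=
  FreeGroup.lift fun i => gen (h + h) (if b then Sum.map (Fin.natAdd h) (Fin.natAdd h) i
    else Sum.map (Fin.castAdd h) (Fin.castAdd h) i)

theorem e_of_Tor (h : ℕ) (b : Bool) (i : Fin h ⊕ Fin h) : e_Tor h b (.of i) =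
    gen (h + h) (if b then Sum.map (Fin.natAdd h) (Fin.natAdd h) i
      else Sum.map (Fin.castAdd h) (Fin.castAdd h) i) := FreeGroup.lift_apply_of

theorem turn_gen_Tor (h : ℕ) (i : Fin (h + h) ⊕ Fin (h + h)) :
    turn h (gen (h + h) i) = gen (h + h) (Sum.map finAddFlip finAddFlip i) :=
  PresentedGroup.toGroup.of (turn_rel h)

theorem rel_ne_Tor (h : ℕ) : surfRel (h + 1) ≠ 1 := by
  intro e
  have := congrArg (FreeGroup.lift (Sum.elim (Fin.cases (swap 0 1) fun _ => 1)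
    (Fin.cases (swap 1 2) fun _ => 1) : Fin (h + 1) ⊕ Fin (h + 1) → Perm (Fin 3))) e
  rw [lift_surfRel, map_one, List.ofFn_succ] at this
  simp only [Sum.elim_inl, Sum.elim_inr, Fin.cases_zero, Fin.cases_succ, mul_one, inv_one,
    List.ofFn_const, List.prod_cons, List.prod_replicate, one_pow] at this
  exact absurd this (by decide)

theorem tor_pf : TorS_st := by
  intro h hh v hv
  have hr : e_Tor h true (surfRel h) = (e_Tor h false (surfRel h))⁻¹ := by
    have e := gen_rel (h + h)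
    rw [lift_add] at e
    exact eq_inv_of_mul_eq_one_right e
  have hτ : ∀ b x, turn h (e_Tor h b x) = e_Tor h (!b) x := by
    intro b x
    refine DFunLike.congr_fun (f := (turn h).comp (e_Tor h b)) (FreeGroup.ext_hom _ _ fun i => ?_) x
    cases b <;> cases i <;> simp [e_of_Tor, turn_gen_Tor, -Fin.natAdd_eq_addNat]
  have hne : surfRel h ≠ 1 := by
    obtain ⟨k, rfl⟩ : ∃ k, h = k + 1 := ⟨h - 1, by omega⟩
    exact rel_ne_Tor k
  let o := fun b => Monoid.PushoutI.of (G := fun _ => FreeGroup (Fin h ⊕ Fin h))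
    (φ := ph_Tor (surfRel h)) b
  let f : Fin (h + h) ⊕ Fin (h + h) → _ := Sum.elim
    (Fin.addCases (fun j => o false (.of (.inl j))) fun j => o true (.of (.inl j)))
    (Fin.addCases (fun j => o false (.of (.inr j))) fun j => o true (.of (.inr j)))
  have f0 : FreeGroup.lift (fun i => f (Sum.map (Fin.castAdd h) (Fin.castAdd h) i)) = o false :=
    FreeGroup.ext_hom _ _ fun i => by cases i <;> simp [f]
  have f1 : FreeGroup.lift (fun i => f (Sum.map (Fin.natAdd h) (Fin.natAdd h) i)) = o true :=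
    FreeGroup.ext_hom _ _ fun i => by cases i <;> simp [f, -Fin.natAdd_eq_addNat]
  have hf : ∀ r ∈ ({surfRel (h + h)} : Set (FreeGroup (Fin (h + h) ⊕ Fin (h + h)))),
      FreeGroup.lift f r = 1 := by
    rintro r rfl
    rw [lift_add, f0, f1]
    have a := Monoid.PushoutI.of_apply_eq_base (ph_Tor (surfRel h)) false (.ofAdd 1)
    have b := Monoid.PushoutI.of_apply_eq_base (ph_Tor (surfRel h)) true (.ofAdd 1)
    rw [← b] at a
    have a' : o false (surfRel h) = (o true (surfRel h))⁻¹ := by simpa [ph_Tor] using a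
    rw [a', inv_mul_cancel]
  obtain ⟨π, hπ0⟩ : ∃ π : Surf (h + h) →* _, ∀ i, π (gen (h + h) i) = f i :=
    ⟨PresentedGroup.toGroup hf, fun i => PresentedGroup.toGroup.of hf⟩
  have hπ : ∀ b x, π (e_Tor h b x) = o b x := by
    intro b x
    refine DFunLike.congr_fun (f := π.comp (e_Tor h b)) (FreeGroup.ext_hom _ _ fun i => ?_) x
    cases b <;> cases i <;> simp [e_of_Tor, hπ0, f, -Fin.natAdd_eq_addNat]
  have nf : ∀ L, Red_Tor (surfRel h) L → P_Tor (e_Tor h) L = 1 → L = [] := by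
    intro L h1 h2
    refine nf_Tor hne L h1 ?_
    simpa [P_Tor, map_list_prod, Function.comp_def, hπ] using congrArg π h2
  have hg : ∀ i, ∃ b x, gen (h + h) i = e_Tor h b x := by
    rintro (i | i) <;> refine Fin.addCases (fun j => ?_) (fun j => ?_) i
    · exact ⟨false, .of (.inl j), by simp [e_of_Tor]⟩
    · exact ⟨true, .of (.inl j), by simp [e_of_Tor]⟩
    · exact ⟨false, .of (.inr j), by simp [e_of_Tor]⟩
    · exact ⟨true, .of (.inr j), by simp [e_of_Tor]⟩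
  have hL : ∃ L, P_Tor (e_Tor h) L = v := by
    have hv' : v ∈ Subgroup.closure (Set.range (gen (h + h))) :=
      (PresentedGroup.closure_range_of _).ge (Subgroup.mem_top v)
    clear hv
    induction hv' using Subgroup.closure_induction'' with
    | mem x hx =>
      obtain ⟨i, rfl⟩ := hx
      obtain ⟨b, y, e⟩ := hg i
      exact ⟨[(b, y)], by simp [P_Tor, e]⟩
    | inv_mem x hx =>
      obtain ⟨i, rfl⟩ := hx
      obtain ⟨b, y, e⟩ := hg i
      exact ⟨[(b, y⁻¹)], by simp [P_Tor, e]⟩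
    | one => exact ⟨[], rfl⟩
    | mul x y _ _ a b =>
      obtain ⟨L, rfl⟩ := a
      obtain ⟨L', rfl⟩ := b
      exact ⟨L ++ L', P_app_Tor _ _ _⟩
  obtain ⟨L, rfl⟩ := hL
  exact main_Tor hr hτ nf _ L (Nat.lt_succ_self _) hv

end Pool.Agent.MP_692752_al.PP

end
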